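import Pool.Agent.Val3.CaseLow

/-!
The number of distinct values of the Perron vector is at most `5000 n ^ (3 / 8)`.
-/

set_option autoImplicit false
set_option linter.unusedSectionVars false
set_option linter.unusedVariables false

namespace Val3

open Finset TE TS

variable {V : Type*} [Fintype V] [DecidableEq V]
variable {G : SimpleGraph V} [DecidableRel G.Adj] {T θ0 θ1 θ2 : ℝ} {α : V → ℝ}

lemma final_q {n : ℝ} (hn : 1 < n) {m q : ℕ} (h5 : m ≤ 5 * q)
    (h : (q : ℝ) ^ 8 ≤ 3 * 10 ^ 21 * n ^ 3) : (m : ℝ) ≤ 2500 * n ^ ((3 : ℝ) / 8) := by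
  have hm : (m : ℝ) ≤ 5 * q := by exact_mod_cast h5
  have hq : (q : ℝ) ≤ 500 * n ^ ((3 : ℝ) / 8) := by
    have e1 : (n ^ ((3 : ℝ) / 8)) ^ 8 = n ^ 3 := by
      rw [← Real.rpow_natCast, ← Real.rpow_mul (by linarith)]
      norm_num
    have e2 : (q : ℝ) ^ 8 ≤ (500 * n ^ ((3 : ℝ) / 8)) ^ 8 := by
      rw [mul_pow, e1]
      have e3 : 0 ≤ n ^ 3 := by positivity
      refine h.trans ?_
      exact mul_le_mul_of_nonneg_right (by norm_num) e3
    exact le_of_pow_le_pow_left₀ (by norm_num) (by positivity) e2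
  linarith

/-- a set of values for which the bound of the cases holds -/
lemma part {n : ℝ} (hn : 1 < n) (X : Finset ℝ)
    (H : ∀ q : ℕ, 1 ≤ q → 3 * q ≤ X.card → X.card ≤ 5 * q → (q : ℝ) ^ 8 ≤ 3 * 10 ^ 21 * n ^ 3) :
    (X.card : ℝ) ≤ 2500 * n ^ ((3 : ℝ) / 8) := by
  have hpow1 : (1 : ℝ) ≤ n ^ ((3 : ℝ) / 8) := Real.one_le_rpow hn.le (by norm_num)
  by_cases hsmall : X.card < 3
  · have : (X.card : ℝ) ≤ 2 := by
      have : X.card ≤ 2 := by omega
      exact_mod_cast this
    linarith
  · exact final_q hn (q := X.card / 3) (by omega) (H (X.card / 3) (by omega) (by omega) (by omega))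

/-- the number of distinct values of the Perron vector -/
theorem values38 (h : Dat G T θ0 θ1 θ2 α) (hreg : ¬ ∃ d, G.IsRegularOfDegree d) (h1 : 0 < θ1) :
    ((Finset.univ.image α).card : ℝ) ≤ 5000 * (Fintype.card V : ℝ) ^ ((3 : ℝ) / 8) := by
  obtain ⟨hcn, hn1, -, -⟩ := quart h hreg h1
  have h2 := th2_lt h hreg
  have h01 := h.h01
  have h12 := h.h12
  set X : Finset ℝ := Finset.univ.image α with hX
  have hex : ∀ x ∈ X, ∃ v, α v = x := by
    intro x hx
    obtain ⟨v, _, hv⟩ := Finset.mem_image.mp hx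
    exact ⟨v, hv⟩
  obtain ⟨x0⟩ := h.conn.nonempty
  let rep : ℝ → V := fun x => if hx : ∃ v, α v = x then hx.choose else x0
  have hrep : ∀ x ∈ X, α (rep x) = x := by
    intro x hx
    have h3 := hex x hx
    have : rep x = h3.choose := dif_pos h3
    rw [this]
    exact h3.choose_spec
  have hsp : ∀ x ∈ X, ∀ y ∈ X, x ≠ y → 1 ≤ |x - y| := by
    intro x hx y hy hxy
    obtain ⟨u, rfl⟩ := hex x hx
    obtain ⟨v, rfl⟩ := hex y hy
    exact spacing h hreg h1 u v hxy
  set n : ℝ := (Fintype.card V : ℝ) with hn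
  have hpow1 : (1 : ℝ) ≤ n ^ ((3 : ℝ) / 8) := Real.one_le_rpow hn1.le (by norm_num)
  rcases lt_or_ge (-θ2) θ1 with hI | hII
  · -- case I
    have hu2 := u_two h hreg h1 hI
    have F := facts h hreg (by linarith) hu2 (by linarith)
    have := part hn1 X (fun q hq1 hq3 hq5 =>
      caseI F hI X hsp q hq1 hq3 hq5 (key1g h (by linarith) X rep hrep))
    linarith
  · rcases lt_or_ge (-θ2) 3 with hs | hl
    · -- both eigenvalues are small
      have := part hn1 X (fun q hq1 hq3 hq5 => by
        have k2 := key2 h h1.le X rep hrep hsp q hq3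
        have hqr : (1 : ℝ) ≤ q := by exact_mod_cast hq1
        have ht : (X.card : ℝ) ≤ 5 * q := by exact_mod_cast hq5
        have hc0 : 0 < θ1 * -θ2 := mul_pos h1 (by linarith)
        have hY0 : 0 < θ1 - θ2 := by linarith
        have e1 := pY_le (θ1 := θ1) (u := -θ2) (t := X.card) (q := q) (K := 1) h1 hII ht
          (by norm_num)
        have e0 : θ1 - θ2 = θ1 + -θ2 := by ring
        rw [← e0] at e1
        have hn0 : 0 < n := by linarith
        have e3 := mul_le_mul_of_nonneg_left e1 hn0.le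
        have e4 : 0 < n * (θ1 * -θ2) := by positivity
        have hY6 : θ1 - θ2 ≤ 6 := by linarith
        have hc9 : θ1 * -θ2 ≤ 9 := by
          have : θ1 * -θ2 ≤ 3 * 3 := mul_le_mul (by linarith) (by linarith) (by linarith)
            (by norm_num)
          linarith
        have hB1 : (θ1 - θ2) ^ 2 ≤ 81 * n := by
          have : (θ1 - θ2) ^ 2 ≤ 6 ^ 2 := pow_le_pow_left₀ hY0.le hY6 2
          linarith
        have hB2 : (θ1 * -θ2) ^ 2 ≤ 81 * n := by
          have : (θ1 * -θ2) ^ 2 ≤ 9 ^ 2 := pow_le_pow_left₀ hc0.le hc9 2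
          linarith
        have h10 : (q : ℝ) ^ 5 ≤ 10 * (n * (θ1 * -θ2) + n * (q * (θ1 - θ2))) := by linarith
        have h11 := fin3 hn1.le hqr hc0 hY0 (by norm_num) hB1 hB2 h10
        refine h11.trans ?_
        exact mul_le_mul_of_nonneg_right (by norm_num) (by positivity))
      linarith
    · -- case II
      have hθ1 : 1 ≤ θ1 := by
        rcases le_or_gt (-(θ1 + θ2)) 2 with h3 | h3
        · linarith
        · exact theta1_ge_one h hreg h1 h3
      have hc := c_le h
      have huc : -θ2 ≤ θ1 * -θ2 := by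
        have := mul_le_mul_of_nonneg_right hθ1 (by linarith : 0 ≤ -θ2)
        linarith
      have F := facts h hreg hθ1 (by linarith) (by linarith)
      have hmain : ∀ X' ⊆ X, ∀ q : ℕ, 3 * q ≤ X'.card →
          (q : ℝ) ^ 5 / 2 ≤ (θ1 + X'.card) * ((θ1 - θ2) * n) := fun X' hX' q hq =>
        key2 h h1.le X' rep (fun x hx => hrep x (hX' hx))
          (fun x hx y hy => hsp x (hX' hx) y (hX' hy)) q hq
      rcases le_or_gt ((kap α * (θ0 - θ1)) ^ 2) (64 * (θ0 - θ2)) with hR | hR
      · have := part hn1 X (fun q hq1 hq3 hq5 =>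
          caseR1 F hII X hsp q hq1 hq3 hq5 (fun x hx => by
            obtain ⟨v, rfl⟩ := hex x hx
            refine ⟨(h.pos v).le, ?_⟩
            have e1 := alpha_le h v
            have e2 : kap α * ((θ0 - θ1) * (θ0 - θ2)) ≤ θ0 * (2 * (kap α * (θ0 - θ1))) := by
              have e3 : 0 < kap α * (θ0 - θ1) := mul_pos F.k0 F.a0
              have e4 := mul_le_mul_of_nonneg_left F.b2 e3.le
              linarith
            exact le_of_mul_le_mul_left (e1.trans e2) h.h0) hR (key2n h h1.le X rep hrep))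
        linarith
      · have hl1 := part hn1 (X.filter (fun x => x ≤ kap α * (θ0 - θ1) / 4))
          (fun q hq1 hq3 hq5 =>
            caseLow F hII _ (fun x hx y hy => hsp x (Finset.mem_filter.mp hx).1 y
              (Finset.mem_filter.mp hy).1) q hq1 hq3 hq5 (fun x hx => by
                refine ⟨?_, (Finset.mem_filter.mp hx).2⟩
                obtain ⟨v, rfl⟩ := hex x (Finset.mem_filter.mp hx).1
                exact (h.pos v).le) hR (hmain _ (Finset.filter_subset _ _) q hq3)
              (key2n h h1.le _ rep (fun x hx => hrep x (Finset.mem_filter.mp hx).1)))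
        have hh1 := part hn1 (X.filter (fun x => ¬ x ≤ kap α * (θ0 - θ1) / 4))
          (fun q hq1 hq3 hq5 => by
            obtain ⟨bb, hbb⟩ := key2o h h1.le
              (X.filter (fun x => ¬ x ≤ kap α * (θ0 - θ1) / 4)) rep
              (fun x hx => hrep x (Finset.mem_filter.mp hx).1)
            exact caseHigh F hII _ (fun x hx y hy => hsp x (Finset.mem_filter.mp hx).1 y
              (Finset.mem_filter.mp hy).1) q hq1 hq3 hq5
              (fun x hx => (not_le.mp (Finset.mem_filter.mp hx).2).le) hR bb hbb)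
        have hcard := Finset.card_filter_add_card_filter_not (s := X)
          (fun x => x ≤ kap α * (θ0 - θ1) / 4)
        have hcard' : (X.card : ℝ) = ((X.filter (fun x => x ≤ kap α * (θ0 - θ1) / 4)).card : ℝ)
            + ((X.filter (fun x => ¬ x ≤ kap α * (θ0 - θ1) / 4)).card : ℝ) := by
          exact_mod_cast hcard.symm
        linarith

end Val3
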