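import Pool.Agent.Val3.Forms

/-!
The absolute bound: `n ≤ (m + 1) ^ 2` for the multiplicities `m` of `θ1` and `θ2`.
-/

set_option autoImplicit false
set_option linter.unusedSectionVars false

namespace Val3

open Finset TE TS

variable {V : Type*} [Fintype V] [DecidableEq V]
variable {G : SimpleGraph V} [DecidableRel G.Adj] {T θ0 θ1 θ2 : ℝ} {α : V → ℝ}

lemma abs_core (B : (V → ℝ) →ₗ[ℝ] (V → ℝ)) (W : Submodule ℝ (V → ℝ)) (hBW : ∀ c, B c ∈ W)
    (hinj : ∀ c : V → ℝ, (∀ x, B (fun z => c z * B (Pi.single x 1) z) = 0) → c = 0) :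
    Fintype.card V ≤ Module.finrank ℝ W ^ 2 := by
  let Φ : (V → ℝ) →ₗ[ℝ] (W →ₗ[ℝ] W) :=
    { toFun := fun c =>
        { toFun := fun w => ⟨B (fun z => c z * w.1 z), hBW _⟩
          map_add' := by
            intro w w'
            apply Subtype.ext
            change B (fun z => c z * (w.1 z + w'.1 z)) = B (fun z => c z * w.1 z)
              + B (fun z => c z * w'.1 z)
            rw [← map_add]
            congr 1
            ext z
            simp only [Pi.add_apply]
            ring
          map_smul' := by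
            intro r w
            apply Subtype.ext
            change B (fun z => c z * (r * w.1 z)) = r • B (fun z => c z * w.1 z)
            rw [← map_smul]
            congr 1
            ext z
            simp only [Pi.smul_apply, smul_eq_mul]
            ring }
      map_add' := by
        intro c c'
        apply LinearMap.ext
        intro w
        apply Subtype.ext
        change B (fun z => (c z + c' z) * w.1 z) = B (fun z => c z * w.1 z)
          + B (fun z => c' z * w.1 z)
        rw [← map_add]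
        congr 1
        ext z
        simp only [Pi.add_apply]
        ring
      map_smul' := by
        intro r c
        apply LinearMap.ext
        intro w
        apply Subtype.ext
        change B (fun z => (r * c z) * w.1 z) = r • B (fun z => c z * w.1 z)
        rw [← map_smul]
        congr 1
        ext z
        simp only [Pi.smul_apply, smul_eq_mul]
        ring }
  have hΦ : Function.Injective Φ := by
    rw [injective_iff_map_eq_zero]
    intro c hc
    apply hinj
    intro x
    have h1 := LinearMap.congr_fun hc ⟨B (Pi.single x 1), hBW _⟩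
    exact congrArg Subtype.val h1
  have h2 := LinearMap.finrank_le_finrank_of_injective hΦ
  rw [Module.finrank_linearMap, Module.finrank_fintype_fun_eq_card] at h2
  rw [sq]
  exact h2

lemma ad_mul_self (x y : V) : ad G x y * ad G y x = ad G x y := by
  unfold ad
  by_cases hxy : G.Adj x y
  · rw [if_pos hxy, if_pos hxy.symm]; ring
  · rw [if_neg hxy]; ring

lemma ad_self (x : V) : ad G x x = 0 := by unfold ad; simp

/-- `A - θ` as a linear map -/
noncomputable def BB (G : SimpleGraph V) [DecidableRel G.Adj] (θ : ℝ) :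
    (V → ℝ) →ₗ[ℝ] (V → ℝ) :=
  { toFun := fun c x => ∑ y, ad G x y * c y - θ * c x
    map_add' := by
      intro c d
      ext x
      simp only [Pi.add_apply, mul_add, Finset.sum_add_distrib]
      ring
    map_smul' := by
      intro r c
      ext x
      simp only [Pi.smul_apply, smul_eq_mul, RingHom.id_apply]
      have e1 : ∑ y, ad G x y * (r * c y) = r * ∑ y, ad G x y * c y := by
        rw [Finset.mul_sum]; exact Finset.sum_congr rfl fun y _ => by ring
      rw [e1]; ring }

lemma BB_apply (θ : ℝ) (c : V → ℝ) (x : V) :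
    BB G θ c x = ∑ y, ad G x y * c y - θ * c x := rfl

lemma BB_single (θ : ℝ) (x y : V) :
    BB G θ (Pi.single x 1) y = ad G y x - θ * (if y = x then 1 else 0) := by
  rw [BB_apply]
  have e1 : ∑ z, ad G y z * (Pi.single x (1 : ℝ) : V → ℝ) z = ad G y x := by
    rw [Finset.sum_eq_single x]
    · rw [Pi.single_eq_same]; ring
    · intro z _ hz; rw [Pi.single_eq_of_ne hz]; ring
    · intro hh; exact absurd (Finset.mem_univ _) hh
  rw [e1]
  by_cases hy : y = x
  · rw [hy, Pi.single_eq_same, if_pos rfl]
  · rw [Pi.single_eq_of_ne hy, if_neg hy]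

lemma diag_zero (θ : ℝ) (c : V → ℝ)
    (hc : ∀ x, BB G θ (fun z => c z * BB G θ (Pi.single x 1) z) = 0) (x : V) :
    ∑ y, ad G x y * c y = -θ ^ 2 * c x := by
  have h1 := congrFun (hc x) x
  rw [BB_apply] at h1
  have e1 : ∑ y, ad G x y * (c y * BB G θ (Pi.single x 1) y) = ∑ y, ad G x y * c y := by
    refine Finset.sum_congr rfl fun y _ => ?_
    rw [BB_single]
    by_cases hy : y = x
    · rw [hy, ad_self]; ring
    · rw [if_neg hy]
      have := ad_mul_self (G := G) x y
      calc ad G x y * (c y * (ad G y x - θ * 0)) = (ad G x y * ad G y x) * c y := by ring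
        _ = _ := by rw [this]
  rw [e1, BB_single, ad_self, if_pos rfl] at h1
  have h2 : ((0 : V → ℝ) x) = 0 := rfl
  rw [h2] at h1
  linarith

/-- the two multiplicities -/
lemma trace_proj (f : (V → ℝ) →ₗ[ℝ] (V → ℝ)) (hidem : IsIdempotentElem f) :
    ∑ x, f (Pi.single x 1) x = (Module.finrank ℝ (LinearMap.range f) : ℝ) := by
  have htr := ((LinearMap.isProj_range_iff_isIdempotentElem f).mpr hidem).trace
  have hmt : LinearMap.trace ℝ (V → ℝ) f = ∑ x, f (Pi.single x 1) x := by
    rw [LinearMap.trace_eq_matrix_trace ℝ (Pi.basisFun ℝ V) f, Matrix.trace]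
    refine Finset.sum_congr rfl fun x _ => ?_
    rw [Matrix.diag_apply, LinearMap.toMatrix_apply]
    simp
  rw [← hmt, htr]

lemma fin_sup (f : (V → ℝ) →ₗ[ℝ] (V → ℝ)) (α : V → ℝ) :
    Module.finrank ℝ ↥(LinearMap.range f ⊔ Submodule.span ℝ {α})
      ≤ Module.finrank ℝ (LinearMap.range f) + 1 := by
  have h1 := Submodule.finrank_add_le_finrank_add_finrank (LinearMap.range f)
    (Submodule.span ℝ {α})
  have h2 := finrank_span_le_card (R := ℝ) ({α} : Set (V → ℝ))
  have h3 : ({α} : Set (V → ℝ)).toFinset.card = 1 := by simp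
  omega

/-- the absolute bound for the multiplicity of `θ2` -/
theorem absB (h : Dat G T θ0 θ1 θ2 α) (h1 : 0 < θ1) (hne : θ2 ≠ -θ1 ^ 2) :
    ∃ m : ℕ, ((Fintype.card V : ℝ) - 1) * θ1 + θ0 = (θ1 - θ2) * m ∧
      Fintype.card V ≤ (m + 1) ^ 2 := by
  have hθ02 : 0 < θ0 - θ2 := by linarith [h.h01, h.h12]
  have hθ12 : 0 < θ1 - θ2 := by linarith [h.h12]
  set κ : ℝ := 1 / (θ0 - θ2) with hκ
  have hκ1 : κ * (θ0 - θ2) = 1 := by rw [hκ]; field_simp
  let f : (V → ℝ) →ₗ[ℝ] (V → ℝ) :=
    { toFun := fun c x => (θ1 * c x - ∑ y, ad G x y * c y + κ * (∑ z, α z * c z) * α x)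
        / (θ1 - θ2)
      map_add' := by
        intro c d
        ext x
        simp only [Pi.add_apply, mul_add, Finset.sum_add_distrib]
        ring
      map_smul' := by
        intro r c
        ext x
        simp only [Pi.smul_apply, smul_eq_mul, RingHom.id_apply]
        have e1 : ∑ y, ad G x y * (r * c y) = r * ∑ y, ad G x y * c y := by
          rw [Finset.mul_sum]; exact Finset.sum_congr rfl fun y _ => by ring
        have e2 : ∑ z, α z * (r * c z) = r * ∑ z, α z * c z := by
          rw [Finset.mul_sum]; exact Finset.sum_congr rfl fun y _ => by ring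
        rw [e1, e2]; ring }
  have hfa : ∀ c x, f c x = (θ1 * c x - ∑ y, ad G x y * c y + κ * (∑ z, α z * c z) * α x)
        / (θ1 - θ2) := fun c x => rfl
  have hA : ∀ c x, ∑ y, ad G x y * f c y = θ2 * f c x := by
    intro c x
    have h1 := h.op c x
    have h2 := h.eig x
    have h3 : ∑ y, ad G x y * f c y = (θ1 * ∑ y, ad G x y * c y
        - ∑ y, ad G x y * (∑ z, ad G y z * c z) + κ * (∑ z, α z * c z) * ∑ y, ad G x y * α y)
        / (θ1 - θ2) := by
      rw [Finset.mul_sum, Finset.mul_sum, ← Finset.sum_sub_distrib, ← Finset.sum_add_distrib,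
        Finset.sum_div]
      refine Finset.sum_congr rfl fun y _ => ?_
      rw [hfa]
      ring
    rw [h3, h2, hfa]
    rw [div_eq_iff hθ12.ne']
    have e9 : θ2 * ((θ1 * c x - ∑ y, ad G x y * c y + κ * (∑ z, α z * c z) * α x) / (θ1 - θ2))
        * (θ1 - θ2) = θ2 * (θ1 * c x - ∑ y, ad G x y * c y + κ * (∑ z, α z * c z) * α x) := by
      field_simp
    rw [e9]
    linear_combination (-1 : ℝ) * h1 + α x * (∑ z, α z * c z) * hκ1
  have hα0 : ∀ c, ∑ x, α x * f c x = 0 := by
    intro c
    have h1 : ∑ x, f c x * ∑ y, ad G x y * α y = θ0 * ∑ x, α x * f c x := by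
      rw [Finset.mul_sum]
      refine Finset.sum_congr rfl fun x _ => ?_
      rw [h.eig x]; ring
    have h2 : ∑ x, f c x * ∑ y, ad G x y * α y = θ2 * ∑ x, α x * f c x := by
      rw [ad_adjoint, Finset.mul_sum]
      refine Finset.sum_congr rfl fun x _ => ?_
      rw [hA c x]; ring
    have h3 : (θ0 - θ2) * ∑ x, α x * f c x = 0 := by linarith
    exact (mul_eq_zero.mp h3).resolve_left hθ02.ne'
  have hidem : IsIdempotentElem f := by
    apply LinearMap.ext
    intro c
    ext x
    have : (f * f) c x = f (f c) x := rfl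
    rw [this, hfa (f c) x, hA c x, hα0 c]
    rw [mul_zero, zero_mul, add_zero, div_eq_iff hθ12.ne']
    ring
  have htr := trace_proj f hidem
  have hval : ∑ x, f (Pi.single x 1) x =
      (((Fintype.card V : ℝ) - 1) * θ1 + θ0) / (θ1 - θ2) := by
    have e1 : ∀ x : V, f (Pi.single x 1) x = θ1 / (θ1 - θ2) + κ / (θ1 - θ2) * α x ^ 2 := by
      intro x
      rw [hfa]
      have a1 : ∑ y, ad G x y * (Pi.single x (1 : ℝ) : V → ℝ) y = 0 := by
        refine Finset.sum_eq_zero fun y _ => ?_
        by_cases hy : y = x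
        · rw [hy]; unfold ad; simp
        · rw [Pi.single_eq_of_ne hy]; ring
      have a2 : ∑ z, α z * (Pi.single x (1 : ℝ) : V → ℝ) z = α x := by
        rw [Finset.sum_eq_single x]
        · simp
        · intro z _ hz; rw [Pi.single_eq_of_ne hz]; ring
        · intro hh; exact absurd (Finset.mem_univ _) hh
      rw [a1, a2]
      simp only [Pi.single_eq_same]
      ring
    rw [Finset.sum_congr rfl fun x _ => e1 x, Finset.sum_add_distrib, Finset.sum_const,
      Finset.card_univ, nsmul_eq_mul, ← Finset.mul_sum, norm_sq h]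
    field_simp
    linear_combination (θ0 - θ1) * hκ1
  rw [hval] at htr
  refine ⟨Module.finrank ℝ (LinearMap.range f), ?_, ?_⟩
  · rw [div_eq_iff hθ12.ne'] at htr
    linarith
  · have hcore := abs_core (BB G θ1) (LinearMap.range f ⊔ Submodule.span ℝ {α}) (by
      intro c
      have e : BB G θ1 c = (-(θ1 - θ2)) • f c + (κ * ∑ z, α z * c z) • α := by
        ext x
        rw [BB_apply, Pi.add_apply, Pi.smul_apply, Pi.smul_apply, smul_eq_mul, smul_eq_mul, hfa]
        field_simp
        ring
      rw [e]
      exact Submodule.add_mem_sup (Submodule.smul_mem _ _ ⟨c, rfl⟩)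
        (Submodule.smul_mem _ _ (Submodule.mem_span_singleton_self α))) (by
      intro c hc
      by_contra hc0
      have h2 := h.ev (-θ1 ^ 2) c hc0 (diag_zero θ1 c hc)
      have h3 := h.h01
      have h4 := h.h0
      have h5 : 0 < θ1 ^ 2 := by positivity
      rcases h2 with h2 | h2 | h2
      · linarith
      · linarith
      · exact hne h2.symm)
    refine hcore.trans (Nat.pow_le_pow_left (fin_sup f α) 2)

/-- the absolute bound for the multiplicity of `θ1` -/
theorem absA (h : Dat G T θ0 θ1 θ2 α) (h1 : 0 < θ1) (h2 : θ2 < -1) :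
    ∃ m : ℕ, ((Fintype.card V : ℝ) - 1) * (-θ2) - θ0 = (θ1 - θ2) * m ∧
      Fintype.card V ≤ (m + 1) ^ 2 := by
  have hθ01 : 0 < θ0 - θ1 := by linarith [h.h01]
  have hθ12 : 0 < θ1 - θ2 := by linarith [h.h12]
  set κ : ℝ := 1 / (θ0 - θ1) with hκ
  have hκ1 : κ * (θ0 - θ1) = 1 := by rw [hκ]; field_simp
  let f : (V → ℝ) →ₗ[ℝ] (V → ℝ) :=
    { toFun := fun c x => (∑ y, ad G x y * c y - θ2 * c x - κ * (∑ z, α z * c z) * α x)
        / (θ1 - θ2)
      map_add' := by
        intro c d
        ext x
        simp only [Pi.add_apply, mul_add, Finset.sum_add_distrib]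
        ring
      map_smul' := by
        intro r c
        ext x
        simp only [Pi.smul_apply, smul_eq_mul, RingHom.id_apply]
        have e1 : ∑ y, ad G x y * (r * c y) = r * ∑ y, ad G x y * c y := by
          rw [Finset.mul_sum]; exact Finset.sum_congr rfl fun y _ => by ring
        have e2 : ∑ z, α z * (r * c z) = r * ∑ z, α z * c z := by
          rw [Finset.mul_sum]; exact Finset.sum_congr rfl fun y _ => by ring
        rw [e1, e2]; ring }
  have hfa : ∀ c x, f c x = (∑ y, ad G x y * c y - θ2 * c x - κ * (∑ z, α z * c z) * α x)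
        / (θ1 - θ2) := fun c x => rfl
  have hA : ∀ c x, ∑ y, ad G x y * f c y = θ1 * f c x := by
    intro c x
    have h1 := h.op c x
    have h2 := h.eig x
    have h3 : ∑ y, ad G x y * f c y = (∑ y, ad G x y * (∑ z, ad G y z * c z)
        - θ2 * ∑ y, ad G x y * c y - κ * (∑ z, α z * c z) * ∑ y, ad G x y * α y)
        / (θ1 - θ2) := by
      rw [Finset.mul_sum, Finset.mul_sum, ← Finset.sum_sub_distrib, ← Finset.sum_sub_distrib,
        Finset.sum_div]
      refine Finset.sum_congr rfl fun y _ => ?_
      rw [hfa]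
      ring
    rw [h3, h2, hfa]
    rw [div_eq_iff hθ12.ne']
    have e9 : θ1 * ((∑ y, ad G x y * c y - θ2 * c x - κ * (∑ z, α z * c z) * α x) / (θ1 - θ2))
        * (θ1 - θ2) = θ1 * (∑ y, ad G x y * c y - θ2 * c x - κ * (∑ z, α z * c z) * α x) := by
      field_simp
    rw [e9]
    linear_combination h1 - α x * (∑ z, α z * c z) * hκ1
  have hα0 : ∀ c, ∑ x, α x * f c x = 0 := by
    intro c
    have h1 : ∑ x, f c x * ∑ y, ad G x y * α y = θ0 * ∑ x, α x * f c x := by
      rw [Finset.mul_sum]
      refine Finset.sum_congr rfl fun x _ => ?_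
      rw [h.eig x]; ring
    have h2 : ∑ x, f c x * ∑ y, ad G x y * α y = θ1 * ∑ x, α x * f c x := by
      rw [ad_adjoint, Finset.mul_sum]
      refine Finset.sum_congr rfl fun x _ => ?_
      rw [hA c x]; ring
    have h3 : (θ0 - θ1) * ∑ x, α x * f c x = 0 := by linarith
    exact (mul_eq_zero.mp h3).resolve_left hθ01.ne'
  have hidem : IsIdempotentElem f := by
    apply LinearMap.ext
    intro c
    ext x
    have : (f * f) c x = f (f c) x := rfl
    rw [this, hfa (f c) x, hA c x, hα0 c]
    rw [mul_zero, zero_mul, sub_zero, div_eq_iff hθ12.ne']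
    ring
  have htr := trace_proj f hidem
  have hval : ∑ x, f (Pi.single x 1) x =
      (((Fintype.card V : ℝ) - 1) * (-θ2) - θ0) / (θ1 - θ2) := by
    have e1 : ∀ x : V, f (Pi.single x 1) x = -θ2 / (θ1 - θ2) - κ / (θ1 - θ2) * α x ^ 2 := by
      intro x
      rw [hfa]
      have a1 : ∑ y, ad G x y * (Pi.single x (1 : ℝ) : V → ℝ) y = 0 := by
        refine Finset.sum_eq_zero fun y _ => ?_
        by_cases hy : y = x
        · rw [hy]; unfold ad; simp
        · rw [Pi.single_eq_of_ne hy]; ring
      have a2 : ∑ z, α z * (Pi.single x (1 : ℝ) : V → ℝ) z = α x := by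
        rw [Finset.sum_eq_single x]
        · simp
        · intro z _ hz; rw [Pi.single_eq_of_ne hz]; ring
        · intro hh; exact absurd (Finset.mem_univ _) hh
      rw [a1, a2]
      simp only [Pi.single_eq_same]
      ring
    rw [Finset.sum_congr rfl fun x _ => e1 x, Finset.sum_sub_distrib, Finset.sum_const,
      Finset.card_univ, nsmul_eq_mul, ← Finset.mul_sum, norm_sq h]
    field_simp
    linear_combination (-(θ0 - θ2)) * hκ1
  rw [hval] at htr
  refine ⟨Module.finrank ℝ (LinearMap.range f), ?_, ?_⟩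
  · rw [div_eq_iff hθ12.ne'] at htr
    linarith
  · have hcore := abs_core (BB G θ2) (LinearMap.range f ⊔ Submodule.span ℝ {α}) (by
      intro c
      have e : BB G θ2 c = (θ1 - θ2) • f c + (κ * ∑ z, α z * c z) • α := by
        ext x
        rw [BB_apply, Pi.add_apply, Pi.smul_apply, Pi.smul_apply, smul_eq_mul, smul_eq_mul, hfa]
        field_simp
        ring
      rw [e]
      exact Submodule.add_mem_sup (Submodule.smul_mem _ _ ⟨c, rfl⟩)
        (Submodule.smul_mem _ _ (Submodule.mem_span_singleton_self α))) (by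
      intro c hc
      by_contra hc0
      have h3 := h.ev (-θ2 ^ 2) c hc0 (diag_zero θ2 c hc)
      have h4 := h.h01
      have h5 := h.h0
      have h6 : 0 < θ2 ^ 2 := by nlinarith
      rcases h3 with h3 | h3 | h3
      · linarith
      · linarith
      · nlinarith)
    refine hcore.trans (Nat.pow_le_pow_left (fin_sup f α) 2)

end Val3
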