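import Mathlib

/-!
Real inequalities for the exponent `3 / 8`.
-/

set_option autoImplicit false

namespace Val3

lemma alg1 {n k a b P : ℝ} (ha : 0 < a) (hab : a ≤ b)
    (hRa : a * b + n * P ≤ k ^ 2 * (a ^ 2 * b)) :
    (n - k ^ 2 * (a * b)) * (k * b) ^ 2 ≤ n * ((k * b) ^ 2 - 4 * P) := by
  have hb : 0 < b := by linarith
  have h1 : 4 * (n * P) ≤ a * b * (4 * (k ^ 2 * a) - 4) := by
    have : a * b * (4 * (k ^ 2 * a) - 4) = 4 * (k ^ 2 * (a ^ 2 * b)) - 4 * (a * b) := by ring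
    rw [this]; linarith
  have h2 : 4 * (k ^ 2 * a) - 4 ≤ (k ^ 2 * a) ^ 2 := by nlinarith [sq_nonneg (k ^ 2 * a - 2)]
  have h3 : (k ^ 2 * a) ^ 2 ≤ (k ^ 2 * b) ^ 2 :=
    pow_le_pow_left₀ (by positivity) (mul_le_mul_of_nonneg_left hab (sq_nonneg _)) 2
  have h4 : a * b * (4 * (k ^ 2 * a) - 4) ≤ a * b * (k ^ 2 * b) ^ 2 :=
    mul_le_mul_of_nonneg_left (h2.trans h3) (by positivity)
  have h5 : (n - k ^ 2 * (a * b)) * (k * b) ^ 2 = n * (k * b) ^ 2 - a * b * (k ^ 2 * b) ^ 2 := by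
    ring
  rw [h5]
  linarith

lemma alg0 {n k a b P : ℝ} (ha : 0 < a) (hb : 0 < b)
    (hRa : a * b + n * P ≤ k ^ 2 * (a ^ 2 * b)) :
    (n - k ^ 2 * (a * b)) * (k * a) ^ 2 ≤ n * ((k * a) ^ 2 - 4 * P) := by
  have h1 : 4 * (n * P) ≤ a * b * (4 * (k ^ 2 * a) - 4) := by
    have : a * b * (4 * (k ^ 2 * a) - 4) = 4 * (k ^ 2 * (a ^ 2 * b)) - 4 * (a * b) := by ring
    rw [this]; linarith
  have h2 : 4 * (k ^ 2 * a) - 4 ≤ (k ^ 2 * a) ^ 2 := by nlinarith [sq_nonneg (k ^ 2 * a - 2)]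
  have h4 : a * b * (4 * (k ^ 2 * a) - 4) ≤ a * b * (k ^ 2 * a) ^ 2 :=
    mul_le_mul_of_nonneg_left h2 (by positivity)
  have h5 : (n - k ^ 2 * (a * b)) * (k * a) ^ 2 = n * (k * a) ^ 2 - a * b * (k ^ 2 * a) ^ 2 := by
    ring
  rw [h5]
  linarith

lemma low_bds {n c a b θ1 s2 : ℝ} (ha : 0 < a) (hb : 0 < b) (hab : b ≤ 4 * a) (h2a : c ≤ 2 * a)
    (hc1 : c ≤ 2 * (c - θ1)) (hn : 0 ≤ n) (hc : 0 ≤ c) (hRa : a * b + n * (c - θ1) ≤ s2 * b) :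
    c / 2 ≤ s2 ∧ n * c / 2 ≤ s2 ^ 2 := by
  have h1 : n * c ≤ 2 * (n * (c - θ1)) := by
    have := mul_le_mul_of_nonneg_left hc1 hn
    linarith
  have h0 : 0 ≤ n * c := mul_nonneg hn hc
  have h2 : a * b + n * c / 2 ≤ s2 * b := by linarith
  have h3 : a * b ≤ s2 * b := by linarith
  have h4 : a ≤ s2 := le_of_mul_le_mul_right h3 hb
  refine ⟨by linarith, ?_⟩
  have h5 : 0 ≤ a * b + n * c / 2 := by positivity
  have h6 : (a * b + n * c / 2) ^ 2 ≤ (s2 * b) ^ 2 := pow_le_pow_left₀ h5 h2 2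
  have h7 : 2 * (a * b * (n * c)) ≤ (s2 * b) ^ 2 := by
    have := sq_nonneg (a * b - n * c / 2)
    nlinarith
  have h8 : 2 * (a * (n * c)) ≤ s2 ^ 2 * b := by
    have : (2 * (a * (n * c))) * b ≤ (s2 ^ 2 * b) * b := by
      calc (2 * (a * (n * c))) * b = 2 * (a * b * (n * c)) := by ring
        _ ≤ (s2 * b) ^ 2 := h7
        _ = (s2 ^ 2 * b) * b := by ring
    exact le_of_mul_le_mul_right this hb
  have h9 : b * (n * c) ≤ 4 * a * (n * c) := mul_le_mul_of_nonneg_right hab h0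
  have h10 : (n * c / 2) * b ≤ s2 ^ 2 * b := by linarith
  exact le_of_mul_le_mul_right h10 hb

/-- (E1) -/
lemma fin1 {n c q Y s2 A : ℝ} (hn : 1 ≤ n) (hq : 1 ≤ q) (hc : 0 < c) (hY : 0 < Y) (hA : 1 ≤ A)
    (hY4 : Y ^ 4 ≤ 256 * (n * c ^ 2)) (hs1 : c / 2 ≤ s2) (hs2 : n * c / 2 ≤ s2 ^ 2)
    (h : q ^ 3 * s2 ≤ A * (n * c + n * (q * Y))) : q ^ 8 ≤ 16384 * A ^ 4 * n ^ 3 := by
  have hn0 : 0 < n := by linarith
  have hq0 : 0 < q := by linarith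
  have hs0 : 0 < s2 := by linarith
  have hA0 : 0 < A := by linarith
  have hA34 : A ^ 3 ≤ A ^ 4 := pow_le_pow_right₀ hA (by norm_num)
  rcases le_total (q * Y) c with hle | hle
  · have h1 : n * (q * Y) ≤ n * c := mul_le_mul_of_nonneg_left hle hn0.le
    have h2 : q ^ 3 * s2 ≤ (4 * A * n) * s2 := by
      have e1 : A * (n * (q * Y)) ≤ A * (n * c) := mul_le_mul_of_nonneg_left h1 hA0.le
      have e2 : (A * n) * (c / 2) ≤ (A * n) * s2 := mul_le_mul_of_nonneg_left hs1 (by positivity)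
      nlinarith
    have h3 : q ^ 3 ≤ 4 * A * n := le_of_mul_le_mul_right h2 hs0
    have h4 : (q ^ 3) ^ 3 ≤ (4 * A * n) ^ 3 := pow_le_pow_left₀ (by positivity) h3 3
    have h5 : q ^ 8 ≤ q ^ 9 := pow_le_pow_right₀ hq (by norm_num)
    have h6 : 0 < n ^ 3 := by positivity
    have h7 : A ^ 3 * n ^ 3 ≤ A ^ 4 * n ^ 3 := mul_le_mul_of_nonneg_right hA34 h6.le
    have h8 : 0 ≤ A ^ 4 * n ^ 3 := by positivity
    calc q ^ 8 ≤ q ^ 9 := h5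
      _ = (q ^ 3) ^ 3 := by ring
      _ ≤ (4 * A * n) ^ 3 := h4
      _ = 64 * (A ^ 3 * n ^ 3) := by ring
      _ ≤ 16384 * A ^ 4 * n ^ 3 := by linarith
  · have h1 : n * c ≤ n * (q * Y) := mul_le_mul_of_nonneg_left hle hn0.le
    have h2 : q * (q ^ 2 * s2) ≤ q * (2 * A * n * Y) := by
      have e1 : A * (n * c) ≤ A * (n * (q * Y)) := mul_le_mul_of_nonneg_left h1 hA0.le
      nlinarith
    have h3 : q ^ 2 * s2 ≤ 2 * A * n * Y := le_of_mul_le_mul_left h2 hq0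
    have h4 : (q ^ 2 * s2) ^ 4 ≤ (2 * A * n * Y) ^ 4 := pow_le_pow_left₀ (by positivity) h3 4
    have h5 : 0 ≤ n * c / 2 := by positivity
    have h6 : (n * c / 2) ^ 2 ≤ (s2 ^ 2) ^ 2 := pow_le_pow_left₀ h5 hs2 2
    have h7 : q ^ 8 * (n * c / 2) ^ 2 ≤ q ^ 8 * (s2 ^ 2) ^ 2 :=
      mul_le_mul_of_nonneg_left h6 (by positivity)
    have h8 : (2 * A * n) ^ 4 * Y ^ 4 ≤ (2 * A * n) ^ 4 * (256 * (n * c ^ 2)) :=
      mul_le_mul_of_nonneg_left hY4 (by positivity)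
    have h9 : (n ^ 2 * c ^ 2) * q ^ 8 ≤ (n ^ 2 * c ^ 2) * (16384 * A ^ 4 * n ^ 3) := by
      calc (n ^ 2 * c ^ 2) * q ^ 8 = 4 * (q ^ 8 * (n * c / 2) ^ 2) := by ring
        _ ≤ 4 * (q ^ 8 * (s2 ^ 2) ^ 2) := by linarith
        _ = 4 * (q ^ 2 * s2) ^ 4 := by ring
        _ ≤ 4 * (2 * A * n * Y) ^ 4 := by linarith
        _ = 4 * ((2 * A * n) ^ 4 * Y ^ 4) := by ring
        _ ≤ 4 * ((2 * A * n) ^ 4 * (256 * (n * c ^ 2))) := by linarith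
        _ = (n ^ 2 * c ^ 2) * (16384 * A ^ 4 * n ^ 3) := by ring
    exact le_of_mul_le_mul_left h9 (by positivity)

/-- (E2) -/
lemma fin2 {n c q Y s2 : ℝ} (hn : 1 ≤ n) (hq : 1 ≤ q) (hc : 0 < c) (hcn : c ≤ n) (hY : 0 < Y)
    (hY4 : Y ^ 4 ≤ 256 * (n * c ^ 2)) (hs1 : c / 2 ≤ s2) (hs2 : n * c / 2 ≤ s2 ^ 2)
    (h : q ^ 5 * s2 ≤ 80 * (n * (Y * c) + n * (q * Y ^ 2))) : q ^ 8 ≤ 100000000 * n ^ 3 := by
  have hn0 : 0 < n := by linarith
  have hq0 : 0 < q := by linarith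
  have hs0 : 0 < s2 := by linarith
  rcases le_total (q * Y) c with hle | hle
  · have h1 : n * (q * Y ^ 2) ≤ n * (Y * c) := by
      have : Y * (q * Y) ≤ Y * c := mul_le_mul_of_nonneg_left hle hY.le
      have := mul_le_mul_of_nonneg_left this hn0.le
      nlinarith
    have h2 : q ^ 5 * s2 ≤ (320 * n * Y) * s2 := by
      have e2 : (n * Y) * (c / 2) ≤ (n * Y) * s2 := mul_le_mul_of_nonneg_left hs1 (by positivity)
      nlinarith
    have h3 : q ^ 5 ≤ 320 * n * Y := le_of_mul_le_mul_right h2 hs0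
    have h4 : (q ^ 5) ^ 8 ≤ (320 * n * Y) ^ 8 := pow_le_pow_left₀ (by positivity) h3 8
    have h5 : (Y ^ 4) ^ 2 ≤ (256 * (n * c ^ 2)) ^ 2 := pow_le_pow_left₀ (by positivity) hY4 2
    have h6 : c ^ 4 ≤ n ^ 4 := pow_le_pow_left₀ hc.le hcn 4
    have h7 : (q ^ 8) ^ 5 ≤ (100000000 * n ^ 3) ^ 5 := by
      calc (q ^ 8) ^ 5 = (q ^ 5) ^ 8 := by ring
        _ ≤ (320 * n * Y) ^ 8 := h4
        _ = 320 ^ 8 * n ^ 8 * (Y ^ 4) ^ 2 := by ring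
        _ ≤ 320 ^ 8 * n ^ 8 * (256 * (n * c ^ 2)) ^ 2 :=
            mul_le_mul_of_nonneg_left h5 (by positivity)
        _ = 320 ^ 8 * 256 ^ 2 * n ^ 10 * c ^ 4 := by ring
        _ ≤ 320 ^ 8 * 256 ^ 2 * n ^ 10 * n ^ 4 := mul_le_mul_of_nonneg_left h6 (by positivity)
        _ = 320 ^ 8 * 256 ^ 2 * n ^ 14 := by ring
        _ ≤ 320 ^ 8 * 256 ^ 2 * n ^ 15 :=
            mul_le_mul_of_nonneg_left (pow_le_pow_right₀ hn (by norm_num)) (by positivity)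
        _ ≤ (100000000 * n ^ 3) ^ 5 := by
            have : (100000000 * n ^ 3) ^ 5 = 100000000 ^ 5 * n ^ 15 := by ring
            rw [this]
            exact mul_le_mul_of_nonneg_right (by norm_num) (by positivity)
    exact le_of_pow_le_pow_left₀ (by norm_num) (by positivity) h7
  · have h1 : n * (Y * c) ≤ n * (q * Y ^ 2) := by
      have : Y * c ≤ Y * (q * Y) := mul_le_mul_of_nonneg_left hle hY.le
      have := mul_le_mul_of_nonneg_left this hn0.le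
      nlinarith
    have h2 : q * (q ^ 4 * s2) ≤ q * (160 * n * Y ^ 2) := by nlinarith
    have h3 : q ^ 4 * s2 ≤ 160 * n * Y ^ 2 := le_of_mul_le_mul_left h2 hq0
    have h4 : (q ^ 4 * s2) ^ 2 ≤ (160 * n * Y ^ 2) ^ 2 := pow_le_pow_left₀ (by positivity) h3 2
    have h7 : q ^ 8 * (n * c / 2) ≤ q ^ 8 * s2 ^ 2 :=
      mul_le_mul_of_nonneg_left hs2 (by positivity)
    have h8 : (160 * n) ^ 2 * Y ^ 4 ≤ (160 * n) ^ 2 * (256 * (n * c ^ 2)) :=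
      mul_le_mul_of_nonneg_left hY4 (by positivity)
    have h9 : (n * c) * q ^ 8 ≤ (n * c) * (13107200 * n ^ 2 * c) := by
      calc (n * c) * q ^ 8 = 2 * (q ^ 8 * (n * c / 2)) := by ring
        _ ≤ 2 * (q ^ 8 * s2 ^ 2) := by linarith
        _ = 2 * (q ^ 4 * s2) ^ 2 := by ring
        _ ≤ 2 * (160 * n * Y ^ 2) ^ 2 := by linarith
        _ = 2 * ((160 * n) ^ 2 * Y ^ 4) := by ring
        _ ≤ 2 * ((160 * n) ^ 2 * (256 * (n * c ^ 2))) := by linarith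
        _ = (n * c) * (13107200 * n ^ 2 * c) := by ring
    have h10 : q ^ 8 ≤ 13107200 * n ^ 2 * c := le_of_mul_le_mul_left h9 (by positivity)
    have h11 : 13107200 * n ^ 2 * c ≤ 13107200 * n ^ 2 * n :=
      mul_le_mul_of_nonneg_left hcn (by positivity)
    have h12 : 0 ≤ n ^ 3 := by positivity
    nlinarith

/-- (E3) -/
lemma fin3 {n c q Y A B : ℝ} (hn : 1 ≤ n) (hq : 1 ≤ q) (hc : 0 < c) (hY : 0 < Y) (hA : 1 ≤ A)
    (hYB : Y ^ 2 ≤ B * n) (hcB : c ^ 2 ≤ B * n)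
    (h : q ^ 5 ≤ A * (n * c + n * (q * Y))) : q ^ 8 ≤ 4 * A ^ 2 * B * n ^ 3 := by
  have hn0 : 0 < n := by linarith
  have hq0 : 0 < q := by linarith
  have hA0 : 0 < A := by linarith
  rcases le_total (q * Y) c with hle | hle
  · have h1 : n * (q * Y) ≤ n * c := mul_le_mul_of_nonneg_left hle hn0.le
    have h2 : q ^ 5 ≤ 2 * A * n * c := by
      have e1 : A * (n * (q * Y)) ≤ A * (n * c) := mul_le_mul_of_nonneg_left h1 hA0.le
      nlinarith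
    have h4 : (q ^ 5) ^ 2 ≤ (2 * A * n * c) ^ 2 := pow_le_pow_left₀ (by positivity) h2 2
    calc q ^ 8 ≤ q ^ 10 := pow_le_pow_right₀ hq (by norm_num)
      _ = (q ^ 5) ^ 2 := by ring
      _ ≤ (2 * A * n * c) ^ 2 := h4
      _ = (2 * A * n) ^ 2 * c ^ 2 := by ring
      _ ≤ (2 * A * n) ^ 2 * (B * n) := mul_le_mul_of_nonneg_left hcB (by positivity)
      _ = 4 * A ^ 2 * B * n ^ 3 := by ring
  · have h1 : n * c ≤ n * (q * Y) := mul_le_mul_of_nonneg_left hle hn0.le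
    have h2 : q * q ^ 4 ≤ q * (2 * A * n * Y) := by
      have e1 : A * (n * c) ≤ A * (n * (q * Y)) := mul_le_mul_of_nonneg_left h1 hA0.le
      nlinarith
    have h3 : q ^ 4 ≤ 2 * A * n * Y := le_of_mul_le_mul_left h2 hq0
    have h4 : (q ^ 4) ^ 2 ≤ (2 * A * n * Y) ^ 2 := pow_le_pow_left₀ (by positivity) h3 2
    calc q ^ 8 = (q ^ 4) ^ 2 := by ring
      _ ≤ (2 * A * n * Y) ^ 2 := h4
      _ = (2 * A * n) ^ 2 * Y ^ 2 := by ring
      _ ≤ (2 * A * n) ^ 2 * (B * n) := mul_le_mul_of_nonneg_left hYB (by positivity)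
      _ = 4 * A ^ 2 * B * n ^ 3 := by ring

end Val3
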