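import Pool.Agent.Val3.Two
import Pool.Agent.Val3.NumG

/-!
Bounds for the eigenvalues and for the Perron vector.
-/

set_option autoImplicit false
set_option linter.unusedSectionVars false

namespace Val3

open Finset TE TS

variable {V : Type*} [Fintype V] [DecidableEq V]
variable {G : SimpleGraph V} [DecidableRel G.Adj] {T θ0 θ1 θ2 : ℝ} {α : V → ℝ}

lemma sum_pos' (h : Dat G T θ0 θ1 θ2 α) : 0 < ∑ x, α x := by
  obtain ⟨x0⟩ := h.conn.nonempty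
  exact Finset.sum_pos (fun x _ => h.pos x) ⟨x0, Finset.mem_univ _⟩

lemma kap_pos (h : Dat G T θ0 θ1 θ2 α) : 0 < kap α := div_pos (sum_pos' h) (N_pos h)

/-- `c ≤ θ0` -/
lemma c_le (h : Dat G T θ0 θ1 θ2 α) : -(θ1 * θ2) ≤ θ0 := by
  have h1 : ∑ x, ∑ y, ad G x y * α y = θ0 * ∑ x, α x := by
    rw [Finset.mul_sum]
    exact Finset.sum_congr rfl fun x _ => h.eig x
  have h2 : ∑ x, ∑ y, ad G x y * α y = ∑ y, α y * (α y ^ 2 - θ1 * θ2) := by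
    rw [Finset.sum_comm]
    refine Finset.sum_congr rfl fun y _ => ?_
    have : ∀ x, ad G x y * α y = α y * ad G y x := by
      intro x; rw [ad_symm]; ring
    rw [Finset.sum_congr rfl fun x _ => this x, ← Finset.mul_sum, sum_ad, h.diag y]
  have h3 : -(θ1 * θ2) * ∑ x, α x ≤ θ0 * ∑ x, α x := by
    rw [← h1, h2, Finset.mul_sum]
    refine Finset.sum_le_sum fun y _ => ?_
    have : 0 < α y ^ 3 := pow_pos (h.pos y) 3
    nlinarith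
  exact le_of_mul_le_mul_right h3 (sum_pos' h)

/-- `θ0 α_x ≤ ∑ α` -/
lemma alpha_le (h : Dat G T θ0 θ1 θ2 α) (x : V) :
    θ0 * α x ≤ kap α * ((θ0 - θ1) * (θ0 - θ2)) := by
  rw [← norm_sq h, kap_mul h, ← h.eig x]
  refine Finset.sum_le_sum fun y _ => ?_
  have := mul_le_mul_of_nonneg_right (ad_le_one (G := G) x y) (h.pos y).le
  linarith

lemma num_q {Θ n c : ℝ} {m : ℕ} (hn : 1 < n) (hc : 0 ≤ c) (h1 : Θ ^ 2 * m ≤ 2 * (n * c))
    (h2 : n ≤ ((m : ℝ) + 1) ^ 2) : Θ ^ 4 ≤ 16 * (n * c ^ 2) := by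
  have hm : 1 ≤ m := by
    by_contra hcon
    have : m = 0 := by omega
    rw [this] at h2
    norm_num at h2
    linarith
  have hm' : (1 : ℝ) ≤ m := by exact_mod_cast hm
  have h3 : n ≤ 4 * (m : ℝ) ^ 2 := by nlinarith
  have h4 : 0 ≤ Θ ^ 2 * m := by positivity
  have h5 : (Θ ^ 2 * m) ^ 2 ≤ (2 * (n * c)) ^ 2 := pow_le_pow_left₀ h4 h1 2
  have h6 : Θ ^ 4 * n ≤ Θ ^ 4 * (4 * (m : ℝ) ^ 2) :=
    mul_le_mul_of_nonneg_left h3 (by positivity)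
  have h7 : Θ ^ 4 * n ≤ (16 * (n * c ^ 2)) * n := by
    calc Θ ^ 4 * n ≤ Θ ^ 4 * (4 * (m : ℝ) ^ 2) := h6
      _ = 4 * (Θ ^ 2 * m) ^ 2 := by ring
      _ ≤ 4 * (2 * (n * c)) ^ 2 := by linarith
      _ = (16 * (n * c ^ 2)) * n := by ring
  exact le_of_mul_le_mul_right h7 (by linarith)

/-- the fourth power of the difference of the eigenvalues -/
lemma quartY (h : Dat G T θ0 θ1 θ2 α) (hreg : ¬ ∃ d, G.IsRegularOfDegree d) (h1 : 1 ≤ θ1) :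
    (θ1 - θ2) ^ 4 ≤ 256 * ((Fintype.card V : ℝ) * (-(θ1 * θ2)) ^ 2) := by
  have h2 := th2_lt h hreg
  have hth := th0_le h
  have h01 := h.h01
  have hpos : 0 < θ1 := by linarith
  obtain ⟨hcn, hn1, -, -⟩ := quart h hreg hpos
  set n : ℝ := (Fintype.card V : ℝ) with hn
  set u : ℝ := -θ2 with hu
  have hcu : -(θ1 * θ2) = θ1 * u := by rw [hu]; ring
  rw [hcu]
  have hu1 : 1 < u := by linarith
  have hc0 : 0 < θ1 * u := by positivity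
  have huc : u ≤ θ1 * u := by nlinarith
  have q1 : θ1 ^ 4 ≤ 16 * (n * (θ1 * u) ^ 2) := by
    obtain ⟨m, hm1, hm2⟩ := absA h hpos h2
    have hm3 : n ≤ ((m : ℝ) + 1) ^ 2 := by rw [hn]; exact_mod_cast hm2
    apply num_q hn1 hc0.le _ hm3
    have f1 : θ1 * m ≤ n * u := by
      have g1 : 0 ≤ u * m := mul_nonneg (by linarith) (Nat.cast_nonneg _)
      nlinarith [h.h0]
    have f2 : θ1 * (θ1 * m) ≤ θ1 * (n * u) := mul_le_mul_of_nonneg_left f1 hpos.le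
    have f3 : 0 ≤ n * (θ1 * u) := by positivity
    nlinarith
  have q2 : u ^ 4 ≤ 16 * (n * (θ1 * u) ^ 2) := by
    by_cases hne : θ2 = -θ1 ^ 2
    · have e1 : u = θ1 ^ 2 := by rw [hu, hne]; ring
      have e2 : u ≤ n := by linarith
      have e3 : u ^ 4 = u * (θ1 * u) ^ 2 := by
        rw [e1]; ring
      rw [e3]
      have e4 : 0 ≤ (θ1 * u) ^ 2 := sq_nonneg _
      have e5 := mul_le_mul_of_nonneg_right e2 e4
      have e6 : 0 ≤ n * (θ1 * u) ^ 2 := by positivity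
      linarith
    · obtain ⟨m, hm1, hm2⟩ := absB h hpos hne
      have hm3 : n ≤ ((m : ℝ) + 1) ^ 2 := by rw [hn]; exact_mod_cast hm2
      apply num_q hn1 hc0.le _ hm3
      have g0 : u * m ≤ (n - 1) * θ1 + θ0 := by
        have g1 : 0 ≤ θ1 * m := mul_nonneg hpos.le (Nat.cast_nonneg _)
        nlinarith
      have g2 : u * (u * m) ≤ u * ((n - 1) * θ1 + θ0) :=
        mul_le_mul_of_nonneg_left g0 (by linarith)
      have g3 : u * θ0 ≤ (θ1 * u) * n := by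
        have a1 : u * θ0 ≤ u * n := mul_le_mul_of_nonneg_left (by linarith) (by linarith)
        have a2 : u * n ≤ (θ1 * u) * n := mul_le_mul_of_nonneg_right huc (by linarith)
        linarith
      have g4 : 0 ≤ θ1 * u := hc0.le
      nlinarith
  have e1 : θ1 - θ2 = θ1 + u := by rw [hu]; ring
  rw [e1]
  have e2 : (θ1 + u) ^ 4 ≤ 8 * (θ1 ^ 4 + u ^ 4) := by
    have a1 : (θ1 + u) ^ 2 ≤ 2 * (θ1 ^ 2 + u ^ 2) := by nlinarith [sq_nonneg (θ1 - u)]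
    have a2 : ((θ1 + u) ^ 2) ^ 2 ≤ (2 * (θ1 ^ 2 + u ^ 2)) ^ 2 :=
      pow_le_pow_left₀ (sq_nonneg _) a1 2
    have a3 : (θ1 ^ 2 + u ^ 2) ^ 2 ≤ 2 * (θ1 ^ 4 + u ^ 4) := by
      nlinarith [sq_nonneg (θ1 ^ 2 - u ^ 2)]
    calc (θ1 + u) ^ 4 = ((θ1 + u) ^ 2) ^ 2 := by ring
      _ ≤ (2 * (θ1 ^ 2 + u ^ 2)) ^ 2 := a2
      _ = 4 * (θ1 ^ 2 + u ^ 2) ^ 2 := by ring
      _ ≤ _ := by linarith
  linarith

/-- all the numerical facts in the two main cases -/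
structure Facts (n θ0 θ1 θ2 k W : ℝ) : Prop where
  n1 : 1 < n
  t1 : 0 < θ1
  t2 : θ2 < -1
  a0 : 0 < θ0 - θ1
  b0 : 0 < θ0 - θ2
  ab : θ0 - θ2 ≤ 4 * (θ0 - θ1)
  b2 : θ0 - θ2 ≤ 2 * θ0
  c0 : 0 < -(θ1 * θ2)
  cn : -(θ1 * θ2) ≤ n
  cb : -(θ1 * θ2) ≤ θ0 - θ2
  c2 : -(θ1 * θ2) ≤ 2 * (-(θ1 * θ2) - θ1)
  Y4 : (θ1 - θ2) ^ 4 ≤ 256 * (n * (-(θ1 * θ2)) ^ 2)
  k0 : 0 < k
  Ra : (θ0 - θ1) * (θ0 - θ2) + n * (-(θ1 * θ2) - θ1) ≤ k ^ 2 * ((θ0 - θ1) ^ 2 * (θ0 - θ2))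
  s1 : -(θ1 * θ2) / 2 ≤ (k * (θ0 - θ1)) ^ 2
  s2 : n * -(θ1 * θ2) / 2 ≤ ((k * (θ0 - θ1)) ^ 2) ^ 2
  W0 : 0 ≤ W
  Wn : W ≤ n
  We : W = n - k ^ 2 * ((θ0 - θ1) * (θ0 - θ2))

lemma facts (h : Dat G T θ0 θ1 θ2 α) (hreg : ¬ ∃ d, G.IsRegularOfDegree d) (h1 : 1 ≤ θ1)
    (hu2 : 2 ≤ -θ2) (huθ : -θ2 ≤ θ0) :
    Facts (Fintype.card V : ℝ) θ0 θ1 θ2 (kap α) (WW α) := by
  have h2 := th2_lt h hreg
  have h01 := h.h01
  have hpos : 0 < θ1 := by linarith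
  obtain ⟨hcn, hn1, -, -⟩ := quart h hreg hpos
  have hc := c_le h
  have hk := kap_pos h
  have hRa := rel_a h
  have hWe := WW_eq h
  have hW0 : 0 ≤ WW α := WW_nonneg
  set n : ℝ := (Fintype.card V : ℝ) with hn
  set k : ℝ := kap α with hk'
  have hcpos : 0 < -(θ1 * θ2) := by nlinarith
  have hθ1 : 2 * θ1 ≤ -(θ1 * θ2) := by nlinarith
  have hcn' : -(θ1 * θ2) ≤ n := by linarith
  have ha0 : 0 < θ0 - θ1 := by linarith
  have hb0 : 0 < θ0 - θ2 := by linarith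
  have hab : θ0 - θ2 ≤ 4 * (θ0 - θ1) := by linarith
  have hlow := low_bds (n := n) (c := -(θ1 * θ2)) (a := θ0 - θ1) (b := θ0 - θ2) (θ1 := θ1)
    (s2 := (k * (θ0 - θ1)) ^ 2) ha0 hb0 hab (by linarith) (by linarith) (by linarith) hcpos.le (by
      have : (k * (θ0 - θ1)) ^ 2 * (θ0 - θ2) = k ^ 2 * ((θ0 - θ1) ^ 2 * (θ0 - θ2)) := by ring
      rw [this]; exact hRa)
  exact {
    n1 := hn1
    t1 := hpos
    t2 := h2
    a0 := ha0
    b0 := hb0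
    ab := hab
    b2 := by linarith
    c0 := hcpos
    cn := hcn'
    cb := by linarith
    c2 := by linarith
    Y4 := quartY h hreg h1
    k0 := hk
    Ra := hRa
    s1 := hlow.1
    s2 := hlow.2
    W0 := hW0
    Wn := by
      rw [hWe]
      have : 0 ≤ k ^ 2 * ((θ0 - θ1) * (θ0 - θ2)) := by positivity
      linarith
    We := hWe }

end Val3
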