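import Pool.Agent.Val3.Bds

/-!
The case `-θ2 < θ1`.
-/

set_option autoImplicit false
set_option linter.unusedSectionVars false
set_option linter.unusedVariables false

namespace Val3

open Finset

/-- rewriting a quadratic polynomial with nonnegative discriminant -/
lemma quad_roots (s e D x : ℝ) (hD : D = s ^ 2 - 4 * e) (h0 : 0 ≤ D) :
    x ^ 2 - s * x + e = (x - (s - √D) / 2) * (x - (s + √D) / 2) := by
  have h1 : √D * √D = D := Real.mul_self_sqrt h0
  have h2 : e = (s ^ 2 - √D * √D) / 4 := by rw [h1, hD]; ring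
  rw [h2]; ring

lemma gapD (X : Finset ℝ) (hX : ∀ x ∈ X, ∀ y ∈ X, x ≠ y → 1 ≤ |x - y|) (s e D : ℝ)
    (hD : D = s ^ 2 - 4 * e) (h0 : 0 ≤ D) (q : ℕ) (hq : 3 * q ≤ X.card) :
    (q : ℝ) ^ 3 * D / 16 ≤ ∑ x ∈ X, (x ^ 2 - s * x + e) ^ 2 := by
  have h := sum_gap X hX ((s - √D) / 2) ((s + √D) / 2) q hq
  have e1 : ((s + √D) / 2 - (s - √D) / 2) ^ 2 = D := by
    have h1 : √D * √D = D := Real.mul_self_sqrt h0
    calc ((s + √D) / 2 - (s - √D) / 2) ^ 2 = √D * √D := by ring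
      _ = D := h1
  rw [e1] at h
  refine h.trans (le_of_eq ?_)
  exact Finset.sum_congr rfl fun x _ => by rw [quad_roots s e D x hD h0]

lemma caseI {n θ0 θ1 θ2 k W : ℝ} (F : Facts n θ0 θ1 θ2 k W) (hlt : -θ2 < θ1) (X : Finset ℝ)
    (hX : ∀ x ∈ X, ∀ y ∈ X, x ≠ y → 1 ≤ |x - y|) (q : ℕ) (hq1 : 1 ≤ q) (hq : 3 * q ≤ X.card)
    (hq5 : X.card ≤ 5 * q)
    (hkey : ∑ x ∈ X, (x ^ 2 - k * (θ0 - θ2) * x + (-(θ1 * θ2) - θ2)) ^ 2
      ≤ (-θ2 + X.card) * ((θ1 - θ2) * W)) :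
    (q : ℝ) ^ 8 ≤ 3 * 10 ^ 21 * n ^ 3 := by
  obtain ⟨n1, t1, t2, a0, b0, hab, b2, c0, cn, cb, c2, Y4, k0, Ra, s1, s2, W0, Wn, We⟩ := F
  set c : ℝ := -(θ1 * θ2) with hc
  set a : ℝ := θ0 - θ1 with ha
  set b : ℝ := θ0 - θ2 with hb
  set Y : ℝ := θ1 - θ2 with hY
  set u : ℝ := -θ2 with hu
  have hYu : Y = θ1 + u := by rw [hY, hu]; ring
  have hcu : c = θ1 * u := by rw [hc, hu]; ring
  have hu0 : 0 < u := by linarith
  have hY0 : 0 < Y := by linarith
  have hqr : (1 : ℝ) ≤ q := by exact_mod_cast hq1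
  have hq0 : (0 : ℝ) < q := by linarith
  have ht : (X.card : ℝ) ≤ 5 * q := by exact_mod_cast hq5
  have ht0 : (0 : ℝ) ≤ X.card := Nat.cast_nonneg _
  have hn0 : 0 < n := by linarith
  have hn3 : 0 < n ^ 3 := by positivity
  have hab' : a ≤ b := by rw [ha, hb]; linarith
  set Z : ℝ := ∑ x ∈ X, (x ^ 2 - k * b * x + (c - θ2)) ^ 2 with hZ
  set S : ℝ := (k * b) ^ 2 with hS
  have hSle : (k * a) ^ 2 ≤ S :=
    pow_le_pow_left₀ (by positivity) (mul_le_mul_of_nonneg_left hab' k0.le) 2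
  have hS1 : c / 2 ≤ S := s1.trans hSle
  have hS2 : n * c / 2 ≤ S ^ 2 := s2.trans (pow_le_pow_left₀ (sq_nonneg _) hSle 2)
  have hS0 : 0 < S := by linarith
  have hWS : W * S ≤ n * (S - 4 * (c - θ1)) := by
    have := alg1 (n := n) (k := k) (a := a) (b := b) (P := c - θ1) a0 hab' Ra
    rw [We]; exact this
  set D : ℝ := S - 4 * (c - θ2) with hD
  have hDY : S - 4 * (c - θ1) = D + 4 * Y := by rw [hD, hY]; ring
  rw [hDY] at hWS
  -- `(u + t) Y ≤ 2 c + 5 q Y`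
  have hut : (u + X.card) * Y ≤ 2 * c + 5 * (q * Y) := by
    have e1 : u * Y ≤ 2 * c := by
      have e0 : u * u ≤ u * θ1 := mul_le_mul_of_nonneg_left hlt.le hu0.le
      have e3 : u * Y = u * θ1 + u * u := by rw [hYu]; ring
      rw [e3, hcu]; linarith
    have e2 : X.card * Y ≤ 5 * q * Y := mul_le_mul_of_nonneg_right ht hY0.le
    have e3 : (u + X.card) * Y = u * Y + X.card * Y := by ring
    linarith
  have hut0 : 0 ≤ (u + X.card) * Y := by positivity
  have hkey2 : Z * S ≤ ((u + X.card) * Y) * (W * S) := by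
    have := mul_le_mul_of_nonneg_right hkey hS0.le
    calc Z * S ≤ (u + X.card) * (Y * W) * S := this
      _ = _ := by ring
  rcases le_total (4 * Y) D with hcase | hcase
  · have hD0 : 0 < D := by linarith
    have g1 := gapD X hX (k * b) (c - θ2) D (by rw [hD, hS]) hD0.le q hq
    have g2 : W * S ≤ 2 * n * D := by
      have := mul_le_mul_of_nonneg_left hcase hn0.le
      linarith
    have g3 : (q : ℝ) ^ 3 * D / 16 * S ≤ ((u + X.card) * Y) * (2 * n * D) :=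
      ((mul_le_mul_of_nonneg_right g1 hS0.le).trans hkey2).trans
        (mul_le_mul_of_nonneg_left g2 hut0)
    have g4 : D * ((q : ℝ) ^ 3 * S) ≤ D * (32 * n * ((u + X.card) * Y)) := by linarith
    have g5 : (q : ℝ) ^ 3 * S ≤ 32 * n * ((u + X.card) * Y) := le_of_mul_le_mul_left g4 hD0
    have g6 : 32 * n * ((u + X.card) * Y) ≤ 32 * n * (2 * c + 5 * (q * Y)) :=
      mul_le_mul_of_nonneg_left hut (by positivity)
    have g7 : (q : ℝ) ^ 3 * S ≤ 160 * (n * c + n * (q * Y)) := by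
      have : 0 ≤ n * c := by positivity
      linarith
    have g8 := fin1 n1.le hqr c0 hY0 (by norm_num) Y4 hS1 hS2 g7
    refine g8.trans ?_
    exact mul_le_mul_of_nonneg_right (by norm_num) hn3.le
  · have g1 := sum_quad X hX (-(k * b)) (c - θ2) q hq
    have g1' : (q : ℝ) ^ 5 / 2 ≤ Z := by
      refine g1.trans (le_of_eq ?_)
      rw [hZ]
      exact Finset.sum_congr rfl fun x _ => by ring
    have g2 : W * S ≤ 8 * n * Y := by
      have := mul_le_mul_of_nonneg_left hcase hn0.le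
      linarith
    have g3 : (q : ℝ) ^ 5 / 2 * S ≤ ((u + X.card) * Y) * (8 * n * Y) :=
      ((mul_le_mul_of_nonneg_right g1' hS0.le).trans hkey2).trans
        (mul_le_mul_of_nonneg_left g2 hut0)
    have g4 : ((u + X.card) * Y) * (8 * n * Y) ≤ (2 * c + 5 * (q * Y)) * (8 * n * Y) :=
      mul_le_mul_of_nonneg_right hut (by positivity)
    have g5 : (q : ℝ) ^ 5 * S ≤ 80 * (n * (Y * c) + n * (q * Y ^ 2)) := by
      have : 0 ≤ n * (Y * c) := by positivity
      have h5 : (2 * c + 5 * (q * Y)) * (8 * n * Y)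
          = 16 * (n * (Y * c)) + 40 * (n * (q * Y ^ 2)) := by ring
      linarith
    have g8 := fin2 n1.le hqr c0 cn hY0 Y4 hS1 hS2 g5
    refine g8.trans ?_
    exact mul_le_mul_of_nonneg_right (by norm_num) hn3.le

end Val3
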