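import Pool.Agent.Val3.CaseI

/-!
The case `θ1 ≤ -θ2`.
-/

set_option autoImplicit false
set_option linter.unusedSectionVars false
set_option linter.unusedVariables false

namespace Val3

open Finset

lemma pY_le {θ1 u t q K : ℝ} (h1 : 0 < θ1) (hle : θ1 ≤ u) (ht : t ≤ 5 * q) (hK : 0 ≤ K) :
    (θ1 + K * t) * (θ1 + u) ≤ 2 * (θ1 * u) + 5 * K * (q * (θ1 + u)) := by
  have hu : 0 < u := by linarith
  have e1 : θ1 * (θ1 + u) ≤ 2 * (θ1 * u) := by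
    have := mul_le_mul_of_nonneg_left hle h1.le
    linarith
  have e2 : (K * t) * (θ1 + u) ≤ (K * (5 * q)) * (θ1 + u) :=
    mul_le_mul_of_nonneg_right (mul_le_mul_of_nonneg_left ht hK) (by linarith)
  have e3 : (θ1 + K * t) * (θ1 + u) = θ1 * (θ1 + u) + (K * t) * (θ1 + u) := by ring
  have e4 : (K * (5 * q)) * (θ1 + u) = 5 * K * (q * (θ1 + u)) := by ring
  linarith

/-- the end of the argument: `q ^ 3 S ≤ A n (θ1 + K t) Y` -/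
lemma conc {n θ0 θ1 θ2 k W : ℝ} (F : Facts n θ0 θ1 θ2 k W) (hle : θ1 ≤ -θ2) {q t K A : ℝ}
    (hq1 : 1 ≤ q) (ht : t ≤ 5 * q) (hK : 1 ≤ K) (hA : 0 < A) (hAK : A * (5 * K) ≤ 20560)
    (h : q ^ 3 * (k * (θ0 - θ1)) ^ 2 ≤ A * (n * ((θ1 + K * t) * (θ1 - θ2)))) :
    q ^ 8 ≤ 3 * 10 ^ 21 * n ^ 3 := by
  obtain ⟨n1, t1, t2, a0, b0, hab, b2, c0, cn, cb, c2, Y4, k0, Ra, s1, s2, W0, Wn, We⟩ := F
  have hn0 : 0 < n := by linarith
  have hn3 : 0 < n ^ 3 := by positivity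
  have hY0 : 0 < θ1 - θ2 := by linarith
  have e0 : θ1 - θ2 = θ1 + -θ2 := by ring
  have e1 := pY_le (θ1 := θ1) (u := -θ2) (t := t) (q := q) (K := K) t1 hle ht (by linarith)
  rw [← e0] at e1
  have e2 : 0 < n * -(θ1 * θ2) := by positivity
  have e3 : 0 < n * (q * (θ1 - θ2)) := by positivity
  have e4 : A * (n * ((θ1 + K * t) * (θ1 - θ2)))
      ≤ A * (n * (2 * (θ1 * -θ2) + 5 * K * (q * (θ1 - θ2)))) :=
    mul_le_mul_of_nonneg_left (mul_le_mul_of_nonneg_left e1 hn0.le) hA.le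
  have e5 : A * (n * (2 * (θ1 * -θ2) + 5 * K * (q * (θ1 - θ2))))
      = (2 * A) * (n * -(θ1 * θ2)) + (A * (5 * K)) * (n * (q * (θ1 - θ2))) := by ring
  have e6 : (2 * A) * (n * -(θ1 * θ2)) ≤ 20560 * (n * -(θ1 * θ2)) :=
    mul_le_mul_of_nonneg_right (by nlinarith) e2.le
  have e7 : (A * (5 * K)) * (n * (q * (θ1 - θ2))) ≤ 20560 * (n * (q * (θ1 - θ2))) :=
    mul_le_mul_of_nonneg_right hAK e3.le
  have e8 : q ^ 3 * (k * (θ0 - θ1)) ^ 2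
      ≤ 20560 * (n * -(θ1 * θ2) + n * (q * (θ1 - θ2))) := by linarith
  have e9 := fin1 n1.le hq1 c0 hY0 (by norm_num) Y4 s1 s2 e8
  refine e9.trans ?_
  exact mul_le_mul_of_nonneg_right (by norm_num) hn3.le

lemma caseR1 {n θ0 θ1 θ2 k W : ℝ} (F : Facts n θ0 θ1 θ2 k W) (hle : θ1 ≤ -θ2) (X : Finset ℝ)
    (hX : ∀ x ∈ X, ∀ y ∈ X, x ≠ y → 1 ≤ |x - y|) (q : ℕ) (hq1 : 1 ≤ q) (hq : 3 * q ≤ X.card)
    (hq5 : X.card ≤ 5 * q) (hx : ∀ x ∈ X, 0 ≤ x ∧ x ≤ 2 * (k * (θ0 - θ1)))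
    (hR : (k * (θ0 - θ1)) ^ 2 ≤ 64 * (θ0 - θ2))
    (hkey : ∑ x ∈ X, (x ^ 2 - k * (θ0 - θ1) * x + (-(θ1 * θ2) - θ1)) ^ 2
      ≤ (θ1 + X.card + (∑ x ∈ X, x ^ 2) / (θ0 - θ2)) * ((θ1 - θ2) * W)) :
    (q : ℝ) ^ 8 ≤ 3 * 10 ^ 21 * n ^ 3 := by
  have F' := F
  obtain ⟨n1, t1, t2, a0, b0, hab, b2, c0, cn, cb, c2, Y4, k0, Ra, s1, s2, W0, Wn, We⟩ := F'
  set c : ℝ := -(θ1 * θ2) with hc
  set a : ℝ := θ0 - θ1 with ha
  set b : ℝ := θ0 - θ2 with hb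
  set Y : ℝ := θ1 - θ2 with hY
  set S : ℝ := (k * a) ^ 2 with hS
  set t : ℝ := (X.card : ℝ) with ht'
  have hY0 : 0 < Y := by linarith
  have hqr : (1 : ℝ) ≤ q := by exact_mod_cast hq1
  have hq0 : (0 : ℝ) < q := by linarith
  have ht : t ≤ 5 * q := by rw [ht']; exact_mod_cast hq5
  have ht0 : (0 : ℝ) ≤ t := Nat.cast_nonneg _
  have hn0 : 0 < n := by linarith
  have hS0 : 0 < S := by positivity
  set Z : ℝ := ∑ x ∈ X, (x ^ 2 - k * a * x + (c - θ1)) ^ 2 with hZ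
  have hT2 : (∑ x ∈ X, x ^ 2) / b ≤ 256 * t := by
    rw [div_le_iff₀ b0]
    have e1 : ∑ x ∈ X, x ^ 2 ≤ ∑ x ∈ X, 4 * S := by
      refine Finset.sum_le_sum fun x hxX => ?_
      have h3 := hx x hxX
      have h4 := pow_le_pow_left₀ h3.1 h3.2 2
      calc x ^ 2 ≤ (2 * (k * a)) ^ 2 := h4
        _ = 4 * S := by rw [hS]; ring
    rw [Finset.sum_const, nsmul_eq_mul, ← ht'] at e1
    have e2 : t * (4 * S) ≤ t * (4 * (64 * b)) :=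
      mul_le_mul_of_nonneg_left (by linarith) ht0
    calc ∑ x ∈ X, x ^ 2 ≤ t * (4 * S) := e1
      _ ≤ t * (4 * (64 * b)) := e2
      _ = 256 * t * b := by ring
  have hZle : Z ≤ (θ1 + 257 * t) * (Y * W) := by
    refine hkey.trans ?_
    exact mul_le_mul_of_nonneg_right (by linarith) (by positivity)
  have hWS : W * S ≤ n * (S - 4 * (c - θ1)) := by
    have := alg0 (n := n) (k := k) (a := a) (b := b) (P := c - θ1) a0 b0 Ra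
    rw [We]; exact this
  set D : ℝ := S - 4 * (c - θ1) with hD
  have hWS0 : 0 ≤ W * S := by positivity
  have hnD : 0 ≤ n * D := hWS0.trans hWS
  have hD0 : 0 ≤ D := by
    by_contra hcon
    push Not at hcon
    have := mul_neg_of_pos_of_neg hn0 hcon
    linarith
  have g0 := sum_quad X hX (-(k * a)) (c - θ1) q hq
  have g0' : (q : ℝ) ^ 5 / 2 ≤ Z := by
    refine g0.trans (le_of_eq ?_)
    rw [hZ]
    exact Finset.sum_congr rfl fun x _ => by ring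
  have hqpos : 0 < (q : ℝ) ^ 5 / 2 := by positivity
  rcases hD0.eq_or_lt with hDz | hDp
  · exfalso
    rw [← hDz, mul_zero] at hWS
    have hW : W = 0 := by
      have h5 : W * S = 0 := le_antisymm hWS hWS0
      exact (mul_eq_zero.mp h5).resolve_right hS0.ne'
    rw [hW, mul_zero, mul_zero] at hZle
    linarith
  · have g1 := gapD X hX (k * a) (c - θ1) D (by rw [hD, hS]) hD0 q hq
    have g2 : (q : ℝ) ^ 3 * D / 16 * S ≤ ((θ1 + 257 * t) * Y) * (n * D) := by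
      calc (q : ℝ) ^ 3 * D / 16 * S ≤ Z * S := mul_le_mul_of_nonneg_right g1 hS0.le
        _ ≤ ((θ1 + 257 * t) * (Y * W)) * S := mul_le_mul_of_nonneg_right hZle hS0.le
        _ = ((θ1 + 257 * t) * Y) * (W * S) := by ring
        _ ≤ ((θ1 + 257 * t) * Y) * (n * D) := mul_le_mul_of_nonneg_left hWS (by positivity)
    have g4 : D * ((q : ℝ) ^ 3 * S) ≤ D * (16 * (n * ((θ1 + 257 * t) * Y))) := by linarith
    have g5 : (q : ℝ) ^ 3 * S ≤ 16 * (n * ((θ1 + 257 * t) * Y)) := le_of_mul_le_mul_left g4 hDp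
    exact conc F hle hqr ht (by norm_num) (by norm_num) (by norm_num) g5

lemma caseHigh {n θ0 θ1 θ2 k W : ℝ} (F : Facts n θ0 θ1 θ2 k W) (hle : θ1 ≤ -θ2) (X : Finset ℝ)
    (hX : ∀ x ∈ X, ∀ y ∈ X, x ≠ y → 1 ≤ |x - y|) (q : ℕ) (hq1 : 1 ≤ q) (hq : 3 * q ≤ X.card)
    (hq5 : X.card ≤ 5 * q) (hx : ∀ x ∈ X, k * (θ0 - θ1) / 4 ≤ x)
    (hR : 64 * (θ0 - θ2) < (k * (θ0 - θ1)) ^ 2) (bb : ℝ)
    (hkey : ∑ x ∈ X, (x ^ 2 + bb * x + (-(θ1 * θ2) - θ1)) ^ 2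
      ≤ (θ1 + X.card) * ((θ1 - θ2) * W)) :
    (q : ℝ) ^ 8 ≤ 3 * 10 ^ 21 * n ^ 3 := by
  have F' := F
  obtain ⟨n1, t1, t2, a0, b0, hab, b2, c0, cn, cb, c2, Y4, k0, Ra, s1, s2, W0, Wn, We⟩ := F'
  have hY0 : 0 < θ1 - θ2 := by linarith
  have hqr : (1 : ℝ) ≤ q := by exact_mod_cast hq1
  have ht : (X.card : ℝ) ≤ 5 * q := by exact_mod_cast hq5
  have hs : 0 < k * (θ0 - θ1) := mul_pos k0 a0
  have g1 := sum_high X hX bb (-(θ1 * θ2) - θ1) (k * (θ0 - θ1)) hs (by linarith) (by linarith)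
    hx q hq
  have ht0 : (0 : ℝ) ≤ X.card := Nat.cast_nonneg _
  have g2 : (θ1 + X.card) * ((θ1 - θ2) * W) ≤ (θ1 + X.card) * ((θ1 - θ2) * n) :=
    mul_le_mul_of_nonneg_left (mul_le_mul_of_nonneg_left Wn hY0.le) (by positivity)
  have g3 : (q : ℝ) ^ 3 * (k * (θ0 - θ1)) ^ 2
      ≤ 32 * (n * ((θ1 + 1 * (X.card : ℝ)) * (θ1 - θ2))) := by linarith
  exact conc F hle hqr ht le_rfl (by norm_num) (by norm_num) g3

end Val3
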