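import Pool.Agent.Val3.CaseII

/-!
The small values in the case `θ1 ≤ -θ2`.
-/

set_option autoImplicit false
set_option linter.unusedSectionVars false
set_option linter.unusedVariables false

namespace Val3

open Finset

lemma caseLow {n θ0 θ1 θ2 k W : ℝ} (F : Facts n θ0 θ1 θ2 k W) (hle : θ1 ≤ -θ2) (X : Finset ℝ)
    (hX : ∀ x ∈ X, ∀ y ∈ X, x ≠ y → 1 ≤ |x - y|) (q : ℕ) (hq1 : 1 ≤ q) (hq : 3 * q ≤ X.card)
    (hq5 : X.card ≤ 5 * q) (hx : ∀ x ∈ X, 0 ≤ x ∧ x ≤ k * (θ0 - θ1) / 4)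
    (hR : 64 * (θ0 - θ2) < (k * (θ0 - θ1)) ^ 2)
    (hcrude : (q : ℝ) ^ 5 / 2 ≤ (θ1 + X.card) * ((θ1 - θ2) * n))
    (hkey : ∑ x ∈ X, (x ^ 2 - k * (θ0 - θ1) * x + (-(θ1 * θ2) - θ1)) ^ 2
      ≤ (θ1 + X.card + (∑ x ∈ X, x ^ 2) / (θ0 - θ2)) * ((θ1 - θ2) * W)) :
    (q : ℝ) ^ 8 ≤ 3 * 10 ^ 21 * n ^ 3 := by
  have F' := F
  obtain ⟨n1, t1, t2, a0, b0, hab, b2, c0, cn, cb, c2, Y4, k0, Ra, s1, s2, W0, Wn, We⟩ := F'
  set c : ℝ := -(θ1 * θ2) with hc
  set a : ℝ := θ0 - θ1 with ha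
  set b : ℝ := θ0 - θ2 with hb
  set Y : ℝ := θ1 - θ2 with hY
  set s : ℝ := k * a with hs
  set S : ℝ := s ^ 2 with hS
  set t : ℝ := (X.card : ℝ) with ht'
  have hs0 : 0 < s := mul_pos k0 a0
  have hY0 : 0 < Y := by linarith
  have hqr : (1 : ℝ) ≤ q := by exact_mod_cast hq1
  have hq0 : (0 : ℝ) < q := by linarith
  have ht : t ≤ 5 * q := by rw [ht']; exact_mod_cast hq5
  have hqt : 3 * (q : ℝ) ≤ t := by rw [ht']; exact_mod_cast hq
  have ht0 : (0 : ℝ) < t := by linarith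
  have hn0 : 0 < n := by linarith
  have hn3 : 0 < n ^ 3 := by positivity
  have hS0 : 0 < S := by positivity
  set P : ℝ := c - θ1 with hP
  have hP0 : 0 ≤ P := by linarith
  have hPb : P ≤ b := by linarith
  set D : ℝ := s ^ 2 - 4 * P with hD
  have hDge : (24 / 25 * s) ^ 2 ≤ D := by
    have : (24 / 25 * s) ^ 2 = 576 / 625 * S := by rw [hS]; ring
    rw [this, hD]
    linarith
  have hD0 : 0 ≤ D := (sq_nonneg _).trans hDge
  have hsD : 24 / 25 * s ≤ √D := Real.le_sqrt_of_sq_le hDge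
  have hsD2 : √D ≤ s := by
    rw [Real.sqrt_le_left hs0.le]
    rw [hD]; linarith
  set r1 : ℝ := (s - √D) / 2 with hr1
  set r2 : ℝ := (s + √D) / 2 with hr2
  have hr10 : 0 ≤ r1 := by rw [hr1]; linarith
  have hr2s : 3 / 4 * s ≤ r2 := by rw [hr2]; linarith
  have hprod : r1 * r2 = P := by
    have h1 : √D * √D = D := Real.mul_self_sqrt hD0
    calc r1 * r2 = (s ^ 2 - √D * √D) / 4 := by rw [hr1, hr2]; ring
      _ = P := by rw [h1, hD]; ring
  have hr1sq : r1 ^ 2 ≤ b / 16 := by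
    have h1 : r1 * (s / 2) ≤ P := by
      rw [← hprod]
      exact mul_le_mul_of_nonneg_left (by linarith) hr10
    have h2 : r1 * s ≤ 2 * b := by linarith
    have h3 : (r1 * s) ^ 2 ≤ (2 * b) ^ 2 := pow_le_pow_left₀ (by positivity) h2 2
    have h4 : r1 ^ 2 * S ≤ (b / 16) * S := by
      calc r1 ^ 2 * S = (r1 * s) ^ 2 := by rw [hS]; ring
        _ ≤ (2 * b) ^ 2 := h3
        _ = (b / 16) * (64 * b) := by ring
        _ ≤ (b / 16) * S := mul_le_mul_of_nonneg_left hR.le (by positivity)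
    exact le_of_mul_le_mul_right h4 hS0
  set Z : ℝ := ∑ x ∈ X, (x ^ 2 - s * x + P) ^ 2 with hZ
  set T2 : ℝ := ∑ x ∈ X, x ^ 2 with hT2
  have hZlow : S / 4 * ∑ x ∈ X, (x - r1) ^ 2 ≤ Z := by
    rw [Finset.mul_sum]
    refine Finset.sum_le_sum fun x hxX => ?_
    rw [quad_roots s P D x hD hD0, mul_pow]
    have h1 := (hx x hxX).2
    have h2 : s / 2 ≤ r2 - x := by linarith
    have h3 : (s / 2) ^ 2 ≤ (r2 - x) ^ 2 := pow_le_pow_left₀ (by positivity) h2 2
    have h4 : (x - r2) ^ 2 = (r2 - x) ^ 2 := by ring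
    have h5 : S / 4 = (s / 2) ^ 2 := by rw [hS]; ring
    rw [h5]
    calc (s / 2) ^ 2 * (x - r1) ^ 2 ≤ (r2 - x) ^ 2 * (x - r1) ^ 2 :=
          mul_le_mul_of_nonneg_right h3 (sq_nonneg _)
      _ = (x - r1) ^ 2 * (x - r2) ^ 2 := by rw [h4]; ring
  have hYn : (Y * W) ≤ Y * n := mul_le_mul_of_nonneg_left Wn hY0.le
  rcases le_total T2 (16 * t * b) with hA | hB
  · have h1 : T2 / b ≤ 16 * t := by rw [div_le_iff₀ b0]; exact hA
    have h2 : Z ≤ (θ1 + 17 * t) * (Y * n) := by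
      calc Z ≤ (θ1 + t + T2 / b) * (Y * W) := hkey
        _ ≤ (θ1 + 17 * t) * (Y * W) :=
            mul_le_mul_of_nonneg_right (by linarith) (by positivity)
        _ ≤ (θ1 + 17 * t) * (Y * n) := mul_le_mul_of_nonneg_left hYn (by positivity)
    have h3 := sum_lin X hX r1 q hq
    have h4 : S / 4 * (2 * (q : ℝ) ^ 3) ≤ Z :=
      (mul_le_mul_of_nonneg_left h3 (by positivity)).trans hZlow
    have h5 : (q : ℝ) ^ 3 * (k * (θ0 - θ1)) ^ 2 ≤ 2 * (n * ((θ1 + 17 * t) * (θ1 - θ2))) := by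
      have : (k * (θ0 - θ1)) ^ 2 = S := rfl
      rw [this]
      linarith
    exact conc F hle hqr ht (by norm_num) (by norm_num) (by norm_num) h5
  · have hTb : t ≤ T2 / b := by
      rw [le_div_iff₀ b0]
      have : 0 < t * b := by positivity
      linarith
    have hlow : T2 / 4 ≤ ∑ x ∈ X, (x - r1) ^ 2 := by
      have h1 : ∑ x ∈ X, (x ^ 2 / 2 - r1 ^ 2) ≤ ∑ x ∈ X, (x - r1) ^ 2 :=
        Finset.sum_le_sum fun x _ => by
          have e1 := sq_nonneg (x - 2 * r1)
          have e2 : (x - r1) ^ 2 = x ^ 2 / 2 - r1 ^ 2 + (x - 2 * r1) ^ 2 / 2 := by ring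
          linarith
      rw [Finset.sum_sub_distrib, ← Finset.sum_div, Finset.sum_const, nsmul_eq_mul, ← ht',
        ← hT2] at h1
      have h2 : t * r1 ^ 2 ≤ t * (b / 16) := mul_le_mul_of_nonneg_left hr1sq ht0.le
      have h3 : 0 < t * b := by positivity
      linarith
    have h1 : S / 4 * (T2 / 4) ≤ Z :=
      (mul_le_mul_of_nonneg_left hlow (by positivity)).trans hZlow
    have h2 : Z ≤ (θ1 + 2 * (T2 / b)) * (Y * n) := by
      calc Z ≤ (θ1 + t + T2 / b) * (Y * W) := hkey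
        _ ≤ (θ1 + 2 * (T2 / b)) * (Y * W) :=
            mul_le_mul_of_nonneg_right (by linarith) (by positivity)
        _ ≤ (θ1 + 2 * (T2 / b)) * (Y * n) := mul_le_mul_of_nonneg_left hYn (by
            have : 0 < T2 / b := by linarith
            positivity)
    have hθY : θ1 * Y ≤ 2 * c := by
      have h5 : θ1 * θ1 ≤ θ1 * -θ2 := mul_le_mul_of_nonneg_left hle t1.le
      have h6 : θ1 * Y = θ1 * θ1 + θ1 * -θ2 := by rw [hY]; ring
      have h7 : c = θ1 * -θ2 := by rw [hc]; ring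
      linarith
    have hT20 : 0 < T2 := by
      have : 0 < 16 * t * b := by positivity
      linarith
    have hncS : n * c ≤ 2 * (S * b) := by
      have h6 : n * P ≤ S * b := by
        have h7 : k ^ 2 * (a ^ 2 * b) = S * b := by rw [hS, hs]; ring
        rw [h7] at Ra
        have : 0 < a * b := by positivity
        linarith
      have h8 : n * c ≤ n * (2 * P) := mul_le_mul_of_nonneg_left c2 hn0.le
      linarith
    rcases le_total (64 * (Y * n)) (S * b) with hC | hC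
    · -- few small values
      have h3 : 2 * (T2 / b) * (Y * n) ≤ T2 * S / 32 := by
        have h4 : T2 / b * (64 * (Y * n)) ≤ T2 / b * (S * b) :=
          mul_le_mul_of_nonneg_left hC (by positivity)
        have h5 : T2 / b * (S * b) = T2 * S := by field_simp
        linarith
      have h4 : S * T2 ≤ 64 * (c * n) := by
        have h5 : θ1 * (Y * n) ≤ 2 * (c * n) := by
          have := mul_le_mul_of_nonneg_right hθY hn0.le
          linarith
        have h6 : (θ1 + 2 * (T2 / b)) * (Y * n) = θ1 * (Y * n) + 2 * (T2 / b) * (Y * n) := by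
          ring
        linarith
      have h6 : S * T2 ≤ S * (128 * b) := by linarith
      have h7 : T2 ≤ 128 * b := le_of_mul_le_mul_left h6 hS0
      have h8 : (16 * t) * b ≤ 128 * b := hB.trans h7
      have h9 : 16 * t ≤ 128 := le_of_mul_le_mul_right h8 b0
      have h10 : (q : ℝ) ≤ 3 := by linarith
      have h11 : (q : ℝ) ^ 8 ≤ 3 ^ 8 := pow_le_pow_left₀ hq0.le h10 8
      have h12 : 1 ≤ n ^ 3 := one_le_pow₀ n1.le
      refine h11.trans ?_
      norm_num
      linarith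
    · have h3 : n * c ≤ n * (128 * Y) := by linarith
      have h4 : c ≤ 128 * Y := le_of_mul_le_mul_left h3 hn0
      have h5 : c ^ 2 ≤ (128 * Y) ^ 2 := pow_le_pow_left₀ c0.le h4 2
      have h6 : Y ^ 2 * Y ^ 2 ≤ (4194304 * n) * Y ^ 2 := by
        calc Y ^ 2 * Y ^ 2 = Y ^ 4 := by ring
          _ ≤ 256 * (n * c ^ 2) := Y4
          _ ≤ 256 * (n * (128 * Y) ^ 2) :=
              mul_le_mul_of_nonneg_left (mul_le_mul_of_nonneg_left h5 hn0.le) (by norm_num)
          _ = (4194304 * n) * Y ^ 2 := by ring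
      have h7 : Y ^ 2 ≤ 4194304 * n := le_of_mul_le_mul_right h6 (by positivity)
      have h8 : c ^ 2 ≤ 68719476736 * n := by
        calc c ^ 2 ≤ (128 * Y) ^ 2 := h5
          _ = 16384 * Y ^ 2 := by ring
          _ ≤ 16384 * (4194304 * n) := by linarith
          _ = 68719476736 * n := by ring
      have h9 : Y ^ 2 ≤ 68719476736 * n := by linarith
      have e0 : Y = θ1 + -θ2 := by rw [hY]; ring
      have e1 := pY_le (θ1 := θ1) (u := -θ2) (t := t) (q := q) (K := 1) t1 hle ht (by norm_num)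
      rw [← e0] at e1
      have e2 : θ1 * -θ2 = c := by rw [hc]; ring
      rw [e2] at e1
      have h10 : (q : ℝ) ^ 5 ≤ 10 * (n * c + n * (q * Y)) := by
        have e3 := mul_le_mul_of_nonneg_left e1 hn0.le
        have e4 : 0 < n * c := by positivity
        linarith
      have h11 := fin3 n1.le hqr c0 hY0 (by norm_num) h9 h8 h10
      refine h11.trans ?_
      exact mul_le_mul_of_nonneg_right (by norm_num) hn3.le

end Val3
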