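import Mathlib

/-!
Values of a monic quadratic polynomial at points with mutual distances at least one.
-/

set_option autoImplicit false

namespace Val3

lemma three_pts (b e x y z r : ℝ) (hr : 0 ≤ r) (hxy : r ≤ y - x) (hyz : r ≤ z - y) :
    r ^ 4 / 2 ≤ (x ^ 2 + b * x + e) ^ 2 + (y ^ 2 + b * y + e) ^ 2 + (z ^ 2 + b * z + e) ^ 2 := by
  set u := y - x with hu
  set v := z - y with hv
  set fx := x ^ 2 + b * x + e with hfx
  set fy := y ^ 2 + b * y + e with hfy
  set fz := z ^ 2 + b * z + e with hfz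
  have hid : v * fx - (u + v) * fy + u * fz = u * v * (u + v) := by
    rw [hfx, hfy, hfz, hu, hv]; ring
  have hu0 : 0 ≤ u := hr.trans hxy
  have hv0 : 0 ≤ v := hr.trans hyz
  have hcs : (v * fx - (u + v) * fy + u * fz) ^ 2
      ≤ (v ^ 2 + (u + v) ^ 2 + u ^ 2) * (fx ^ 2 + fy ^ 2 + fz ^ 2) := by
    nlinarith [sq_nonneg (v * fy + (u + v) * fx), sq_nonneg (v * fz - u * fx),
      sq_nonneg ((u + v) * fz + u * fy)]
  rw [hid] at hcs
  have hS : 0 ≤ fx ^ 2 + fy ^ 2 + fz ^ 2 := by positivity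
  have h2 : v ^ 2 + (u + v) ^ 2 + u ^ 2 ≤ 2 * (u + v) ^ 2 := by nlinarith [mul_nonneg hu0 hv0]
  have h3 : (u * v * (u + v)) ^ 2 ≤ 2 * (u + v) ^ 2 * (fx ^ 2 + fy ^ 2 + fz ^ 2) :=
    hcs.trans (mul_le_mul_of_nonneg_right h2 hS)
  rcases hr.eq_or_lt with h0 | h0
  · rw [← h0]; simp; positivity
  have huv : 0 < (u + v) ^ 2 := by
    have : 0 < u + v := by linarith
    positivity
  have h4 : (u * v) ^ 2 ≤ 2 * (fx ^ 2 + fy ^ 2 + fz ^ 2) := by
    have : (u + v) ^ 2 * (u * v) ^ 2 ≤ (u + v) ^ 2 * (2 * (fx ^ 2 + fy ^ 2 + fz ^ 2)) := by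
      calc (u + v) ^ 2 * (u * v) ^ 2 = (u * v * (u + v)) ^ 2 := by ring
        _ ≤ 2 * (u + v) ^ 2 * (fx ^ 2 + fy ^ 2 + fz ^ 2) := h3
        _ = (u + v) ^ 2 * (2 * (fx ^ 2 + fy ^ 2 + fz ^ 2)) := by ring
    exact le_of_mul_le_mul_left this huv
  have h5 : r * r ≤ u * v := mul_le_mul hxy hyz hr hu0
  have h6 : (r * r) ^ 2 ≤ (u * v) ^ 2 := pow_le_pow_left₀ (by positivity) h5 2
  have h7 : (r * r) ^ 2 = r ^ 4 := by ring
  linarith

lemma emb_gap {t : ℕ} (e : Fin t → ℝ) (hm : StrictMono e) (h1 : ∀ i j, i ≠ j → 1 ≤ |e i - e j|)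
    (k : ℕ) : ∀ (i : ℕ) (hi : i + k < t), e ⟨i, by omega⟩ + k ≤ e ⟨i + k, hi⟩ := by
  induction k with
  | zero => intro i hi; simp
  | succ k ih =>
    intro i hi
    have h2 := ih i (by omega)
    have hlt : e ⟨i + k, by omega⟩ < e ⟨i + (k + 1), hi⟩ := hm (by
      rw [Fin.mk_lt_mk]; omega)
    have hne : (⟨i + (k + 1), hi⟩ : Fin t) ≠ ⟨i + k, by omega⟩ := by
      intro h
      rw [Fin.mk.injEq] at h
      omega
    have h3 := h1 _ _ hne
    rw [abs_of_pos (by linarith)] at h3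
    push_cast
    linarith

/-- the sum of the squares of a monic quadratic polynomial over a set of reals with mutual
distances at least one -/
lemma sum_quad (X : Finset ℝ) (hX : ∀ x ∈ X, ∀ y ∈ X, x ≠ y → 1 ≤ |x - y|) (b e : ℝ) (q : ℕ)
    (hq : 3 * q ≤ X.card) :
    (q : ℝ) ^ 5 / 2 ≤ ∑ x ∈ X, (x ^ 2 + b * x + e) ^ 2 := by
  classical
  set t := X.card with ht
  let g : Fin t → ℝ := fun i => X.orderEmbOfFin ht.symm i
  have hgm : StrictMono g := (X.orderEmbOfFin ht.symm).strictMono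
  have hgX : ∀ i, g i ∈ X := fun i => Finset.orderEmbOfFin_mem X ht.symm i
  have hg1 : ∀ i j, i ≠ j → 1 ≤ |g i - g j| := fun i j hij =>
    hX _ (hgX i) _ (hgX j) (fun h => hij (hgm.injective h))
  set F : ℝ → ℝ := fun x => (x ^ 2 + b * x + e) ^ 2 with hF
  have hF0 : ∀ x, 0 ≤ F x := fun x => sq_nonneg _
  let G : ℕ → ℝ := fun k => if h : k < t then F (g ⟨k, h⟩) else 0
  have hG0 : ∀ k, 0 ≤ G k := by
    intro k
    simp only [G]
    split_ifs
    · exact hF0 _
    · exact le_rfl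
  have hsum : ∑ x ∈ X, F x = ∑ k ∈ Finset.range t, G k := by
    have e1 : ∑ x ∈ X, F x = ∑ i : Fin t, F (g i) := by
      have himg : X = Finset.univ.image g := by
        ext x
        constructor
        · intro hx
          have : x ∈ Set.range (X.orderEmbOfFin ht.symm) := by
            rw [Finset.range_orderEmbOfFin]; exact hx
          obtain ⟨i, hi⟩ := this
          exact Finset.mem_image.mpr ⟨i, Finset.mem_univ _, hi⟩
        · intro hx
          obtain ⟨i, _, hi⟩ := Finset.mem_image.mp hx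
          rw [← hi]; exact hgX i
      conv_lhs => rw [himg]
      rw [Finset.sum_image (fun i _ j _ h => hgm.injective h)]
    rw [e1, Finset.sum_range]
    refine Finset.sum_congr rfl fun i _ => ?_
    simp only [G]
    rw [dif_pos i.2]
  change (q : ℝ) ^ 5 / 2 ≤ ∑ x ∈ X, F x
  rw [hsum]
  have hsub : ∑ k ∈ Finset.range (q + q + q), G k ≤ ∑ k ∈ Finset.range t, G k := by
    apply Finset.sum_le_sum_of_subset_of_nonneg
    · intro k hk
      rw [Finset.mem_range] at hk ⊢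
      omega
    · intro k _ _; exact hG0 k
  refine le_trans ?_ hsub
  rw [Finset.sum_range_add, Finset.sum_range_add, ← Finset.sum_add_distrib,
    ← Finset.sum_add_distrib]
  have hterm : ∀ i ∈ Finset.range q, (q : ℝ) ^ 4 / 2 ≤ G i + G (q + i) + G (q + q + i) := by
    intro i hi
    rw [Finset.mem_range] at hi
    have h1 : i < t := by omega
    have h2 : q + i < t := by omega
    have h3 : q + q + i < t := by omega
    simp only [G]
    rw [dif_pos h1, dif_pos h2, dif_pos h3]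
    have g1 := emb_gap g hgm hg1 q i (by omega)
    have g2 := emb_gap g hgm hg1 q (q + i) (by omega)
    have e1 : (⟨i + q, by omega⟩ : Fin t) = ⟨q + i, h2⟩ := by
      rw [Fin.mk.injEq]; omega
    have e2 : (⟨q + i + q, by omega⟩ : Fin t) = ⟨q + q + i, h3⟩ := by
      rw [Fin.mk.injEq]; omega
    rw [e1] at g1
    rw [e2] at g2
    exact three_pts b e _ _ _ q (Nat.cast_nonneg _) (by linarith) (by linarith)
  have := Finset.sum_le_sum hterm
  rw [Finset.sum_const, Finset.card_range, nsmul_eq_mul] at this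
  calc (q : ℝ) ^ 5 / 2 = q * ((q : ℝ) ^ 4 / 2) := by ring
    _ ≤ _ := this

end Val3
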