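import Pool.Agent.TS.Alg
import Pool.Agent.Val3.Dd

/-!
The two positive semidefinite forms of a graph with three eigenvalues, and the inequality for the
number of distinct values of the Perron vector.
-/

set_option autoImplicit false

namespace Val3

open Finset TE TS

variable {V : Type*} [Fintype V] [DecidableEq V]
variable {G : SimpleGraph V} [DecidableRel G.Adj] {T θ0 θ1 θ2 : ℝ} {α : V → ℝ}

lemma form1 (h : Dat G T θ0 θ1 θ2 α) (c : V → ℝ) :
    0 ≤ qf G c - θ2 * ∑ x, c x ^ 2 - (∑ x, α x * c x) ^ 2 / (θ0 - θ1) := by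
  have hθ01 : 0 < θ0 - θ1 := by linarith [h.h01]
  have hθ12 : 0 < θ1 - θ2 := by linarith [h.h12]
  set S : ℝ := ∑ x, α x * c x with hS
  set κ : ℝ := 1 / (θ0 - θ1) with hκ
  have hκ1 : κ * (θ0 - θ1) = 1 := by rw [hκ]; field_simp
  set p : V → ℝ := fun x => ∑ y, ad G x y * c y - θ2 * c x - κ * S * α x with hp
  have hAp : ∀ x, ∑ y, ad G x y * p y = θ1 * p x := by
    intro x
    have h1 := h.op c x
    have h2 := h.eig x
    have h3 : ∑ y, ad G x y * p y = ∑ y, ad G x y * (∑ z, ad G y z * c z)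
        - θ2 * ∑ y, ad G x y * c y - κ * S * ∑ y, ad G x y * α y := by
      rw [Finset.mul_sum, Finset.mul_sum, ← Finset.sum_sub_distrib, ← Finset.sum_sub_distrib]
      refine Finset.sum_congr rfl fun y _ => ?_
      rw [hp]
      ring
    rw [h3, h2, hp]
    simp only
    linear_combination h1 - α x * S * hκ1
  have hpα : ∑ x, p x * α x = 0 := by
    have h1 : ∑ x, p x * ∑ y, ad G x y * α y = θ0 * ∑ x, p x * α x := by
      rw [Finset.mul_sum]
      refine Finset.sum_congr rfl fun x _ => ?_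
      rw [h.eig x]; ring
    have h2 : ∑ x, p x * ∑ y, ad G x y * α y = θ1 * ∑ x, p x * α x := by
      rw [ad_adjoint, Finset.mul_sum]
      refine Finset.sum_congr rfl fun x _ => ?_
      rw [hAp x]; ring
    have h3 : (θ0 - θ1) * ∑ x, p x * α x = 0 := by linarith
    exact (mul_eq_zero.mp h3).resolve_left hθ01.ne'
  have hpc : ∑ x, p x * (∑ y, ad G x y * c y) = θ1 * ∑ x, p x * c x := by
    rw [ad_adjoint, Finset.mul_sum]
    refine Finset.sum_congr rfl fun x _ => ?_
    rw [hAp x]; ring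
  have hpp : ∑ x, p x ^ 2 = (θ1 - θ2) * ∑ x, p x * c x := by
    have h1 : ∀ x, p x ^ 2 = p x * (∑ y, ad G x y * c y) - θ2 * (p x * c x)
        - κ * S * (p x * α x) := by
      intro x
      have : p x = ∑ y, ad G x y * c y - θ2 * c x - κ * S * α x := rfl
      calc p x ^ 2 = p x * p x := by ring
        _ = p x * (∑ y, ad G x y * c y - θ2 * c x - κ * S * α x) := by rw [← this]
        _ = _ := by ring
    rw [Finset.sum_congr rfl fun x _ => h1 x, Finset.sum_sub_distrib, Finset.sum_sub_distrib,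
      ← Finset.mul_sum, ← Finset.mul_sum, hpc, hpα]
    ring
  have hpc2 : ∑ x, p x * c x = qf G c - θ2 * ∑ x, c x ^ 2 - S ^ 2 / (θ0 - θ1) := by
    have h1 : ∀ x, p x * c x = c x * (∑ y, ad G x y * c y) - θ2 * c x ^ 2
        - κ * S * (α x * c x) := by
      intro x
      have : p x = ∑ y, ad G x y * c y - θ2 * c x - κ * S * α x := rfl
      rw [this]; ring
    rw [Finset.sum_congr rfl fun x _ => h1 x, Finset.sum_sub_distrib, Finset.sum_sub_distrib,
      ← Finset.mul_sum, ← Finset.mul_sum, ← hS]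
    unfold qf
    rw [hκ]; ring
  rw [← hpc2]
  have h5 : 0 ≤ ∑ x, p x ^ 2 := Finset.sum_nonneg fun x _ => sq_nonneg _
  rw [hpp] at h5
  by_contra hb
  push Not at hb
  have := mul_neg_of_pos_of_neg hθ12 hb
  linarith

lemma qf_add (z w : V → ℝ) (s : ℝ) : qf G (fun x => z x + s * w x)
    = qf G z + 2 * s * (∑ x, z x * ∑ y, ad G x y * w y) + s ^ 2 * qf G w := by
  have h1 : qf G (fun x => z x + s * w x) = ∑ x, z x * (∑ y, ad G x y * z y)
      + s * ∑ x, z x * (∑ y, ad G x y * w y) + s * ∑ x, w x * (∑ y, ad G x y * z y)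
      + s ^ 2 * ∑ x, w x * (∑ y, ad G x y * w y) := by
    unfold qf
    rw [Finset.mul_sum, Finset.mul_sum, Finset.mul_sum, ← Finset.sum_add_distrib,
      ← Finset.sum_add_distrib, ← Finset.sum_add_distrib]
    refine Finset.sum_congr rfl fun x _ => ?_
    have : ∑ y, ad G x y * (z y + s * w y) = ∑ y, ad G x y * z y + s * ∑ y, ad G x y * w y := by
      rw [Finset.mul_sum, ← Finset.sum_add_distrib]
      exact Finset.sum_congr rfl fun y _ => by ring
    rw [this]; ring
  have h2 : ∑ x, w x * (∑ y, ad G x y * z y) = ∑ x, z x * (∑ y, ad G x y * w y) := by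
    rw [ad_adjoint]
    exact Finset.sum_congr rfl fun x _ => by ring
  rw [h1, h2]
  unfold qf
  ring

lemma disc {a b c : ℝ} (h : ∀ s : ℝ, 0 ≤ c + 2 * s * b + s ^ 2 * a) : b ^ 2 ≤ c * a := by
  have h1 : ∀ s : ℝ, 0 ≤ a * (s * s) + (2 * b) * s + c := by
    intro s
    have := h s
    nlinarith
  have h2 := discrim_le_zero h1
  unfold discrim at h2
  nlinarith

lemma cs2 (h : Dat G T θ0 θ1 θ2 α) (z w : V → ℝ) (hw : ∑ x, α x * w x = 0) :
    (∑ x, z x * ((∑ y, ad G x y * w y) - θ1 * w x)) ^ 2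
      ≤ (θ1 * ∑ x, z x ^ 2 - qf G z + (∑ x, α x * z x) ^ 2 / (θ0 - θ2))
        * (θ1 * ∑ x, w x ^ 2 - qf G w) := by
  have key := disc (a := θ1 * ∑ x, w x ^ 2 - qf G w)
    (b := -(∑ x, z x * ((∑ y, ad G x y * w y) - θ1 * w x)))
    (c := θ1 * ∑ x, z x ^ 2 - qf G z + (∑ x, α x * z x) ^ 2 / (θ0 - θ2)) (by
      intro s
      have h1 := form h (fun x => z x + s * w x)
      have e1 : ∑ x, (z x + s * w x) ^ 2
          = ∑ x, z x ^ 2 + 2 * s * ∑ x, z x * w x + s ^ 2 * ∑ x, w x ^ 2 := by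
        rw [Finset.mul_sum, Finset.mul_sum, ← Finset.sum_add_distrib, ← Finset.sum_add_distrib]
        exact Finset.sum_congr rfl fun x _ => by ring
      have e2 : ∑ x, α x * (z x + s * w x) = ∑ x, α x * z x := by
        have : ∑ x, α x * (z x + s * w x) = ∑ x, α x * z x + s * ∑ x, α x * w x := by
          rw [Finset.mul_sum, ← Finset.sum_add_distrib]
          exact Finset.sum_congr rfl fun x _ => by ring
        rw [this, hw]; ring
      have e3 : ∑ x, z x * ((∑ y, ad G x y * w y) - θ1 * w x)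
          = ∑ x, z x * (∑ y, ad G x y * w y) - θ1 * ∑ x, z x * w x := by
        rw [Finset.mul_sum, ← Finset.sum_sub_distrib]
        exact Finset.sum_congr rfl fun x _ => by ring
      rw [e1, e2, qf_add] at h1
      rw [e3]
      linarith)
  rw [neg_sq] at key
  exact key

lemma cs1 (h : Dat G T θ0 θ1 θ2 α) (z w : V → ℝ) (hw : ∑ x, α x * w x = 0) :
    (∑ x, z x * ((∑ y, ad G x y * w y) - θ2 * w x)) ^ 2
      ≤ (qf G z - θ2 * ∑ x, z x ^ 2 - (∑ x, α x * z x) ^ 2 / (θ0 - θ1))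
        * (qf G w - θ2 * ∑ x, w x ^ 2) := by
  have key := disc (a := qf G w - θ2 * ∑ x, w x ^ 2)
    (b := (∑ x, z x * ((∑ y, ad G x y * w y) - θ2 * w x)))
    (c := qf G z - θ2 * ∑ x, z x ^ 2 - (∑ x, α x * z x) ^ 2 / (θ0 - θ1)) (by
      intro s
      have h1 := form1 h (fun x => z x + s * w x)
      have e1 : ∑ x, (z x + s * w x) ^ 2
          = ∑ x, z x ^ 2 + 2 * s * ∑ x, z x * w x + s ^ 2 * ∑ x, w x ^ 2 := by
        rw [Finset.mul_sum, Finset.mul_sum, ← Finset.sum_add_distrib, ← Finset.sum_add_distrib]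
        exact Finset.sum_congr rfl fun x _ => by ring
      have e2 : ∑ x, α x * (z x + s * w x) = ∑ x, α x * z x := by
        have : ∑ x, α x * (z x + s * w x) = ∑ x, α x * z x + s * ∑ x, α x * w x := by
          rw [Finset.mul_sum, ← Finset.sum_add_distrib]
          exact Finset.sum_congr rfl fun x _ => by ring
        rw [this, hw]; ring
      have e3 : ∑ x, z x * ((∑ y, ad G x y * w y) - θ2 * w x)
          = ∑ x, z x * (∑ y, ad G x y * w y) - θ2 * ∑ x, z x * w x := by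
        rw [Finset.mul_sum, ← Finset.sum_sub_distrib]
        exact Finset.sum_congr rfl fun x _ => by ring
      rw [e1, e2, qf_add] at h1
      rw [e3]
      linarith)
  exact key

lemma qf_lo (h : Dat G T θ0 θ1 θ2 α) (w : V → ℝ) : θ2 * ∑ x, w x ^ 2 ≤ qf G w := by
  have h1 := form1 h w
  have h2 : 0 ≤ (∑ x, α x * w x) ^ 2 / (θ0 - θ1) :=
    div_nonneg (sq_nonneg _) (by linarith [h.h01])
  linarith

lemma qf_up (h : Dat G T θ0 θ1 θ2 α) (w : V → ℝ) (hw : ∑ x, α x * w x = 0) :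
    qf G w ≤ θ1 * ∑ x, w x ^ 2 := by
  have h1 := form h w
  rw [hw] at h1
  have h2 : (0 : ℝ) ^ 2 / (θ0 - θ2) = 0 := by simp
  rw [h2] at h1
  linarith

lemma ad_le_one (x y : V) : ad G x y ≤ 1 := by
  unfold ad; split_ifs <;> norm_num

lemma qf_abs (z : V → ℝ) (S : Finset V) (hz : ∀ v, v ∉ S → z v = 0) :
    |qf G z| ≤ S.card * ∑ x, z x ^ 2 := by
  have h1 : |qf G z| ≤ ∑ x, |z x| * ∑ y, |z y| := by
    unfold qf
    refine (Finset.abs_sum_le_sum_abs _ _).trans (Finset.sum_le_sum fun x _ => ?_)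
    rw [abs_mul]
    refine mul_le_mul_of_nonneg_left ?_ (abs_nonneg _)
    refine (Finset.abs_sum_le_sum_abs _ _).trans (Finset.sum_le_sum fun y _ => ?_)
    rw [abs_mul, abs_of_nonneg (ad_nonneg G x y)]
    have := mul_le_mul_of_nonneg_right (ad_le_one (G := G) x y) (abs_nonneg (z y))
    linarith
  rw [← Finset.sum_mul] at h1
  have h2 : ∑ x, |z x| = ∑ x ∈ S, |z x| := by
    symm
    apply Finset.sum_subset (Finset.subset_univ _)
    intro x _ hx
    rw [hz x hx, abs_zero]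
  have h3 : ∑ x, z x ^ 2 = ∑ x ∈ S, |z x| ^ 2 := by
    rw [← Finset.sum_subset (Finset.subset_univ S) (fun x _ hx => by rw [hz x hx]; ring)]
    exact Finset.sum_congr rfl fun x _ => (sq_abs _).symm
  rw [h2] at h1
  rw [h3]
  refine h1.trans ?_
  have h4 := sq_sum_le_card_mul_sum_sq (s := S) (f := fun x => |z x|)
  rw [sq] at h4
  exact h4

end Val3
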