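import Pool.Agent.Val3.Dd

/-!
Sums of quadratic polynomials over sets of reals with mutual distances at least one.
-/

set_option autoImplicit false

namespace Val3

lemma one_far {r1 r2 x r : ℝ} (hr : 0 ≤ r) (h1 : r / 2 ≤ |x - r1|) (h2 : r / 2 ≤ |x - r2|) :
    r ^ 2 * (r2 - r1) ^ 2 / 16 ≤ ((x - r1) * (x - r2)) ^ 2 := by
  have hD : |r2 - r1| ≤ |x - r1| + |x - r2| := by
    have : r2 - r1 = (x - r1) - (x - r2) := by ring
    rw [this]; exact abs_sub _ _
  have key : r * |r2 - r1| / 4 ≤ |x - r1| * |x - r2| := by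
    rcases le_total |x - r1| |x - r2| with h | h
    · nlinarith [abs_nonneg (x - r1), abs_nonneg (x - r2), abs_nonneg (r2 - r1)]
    · nlinarith [abs_nonneg (x - r1), abs_nonneg (x - r2), abs_nonneg (r2 - r1)]
  have h0 : 0 ≤ r * |r2 - r1| / 4 := by positivity
  have h3 := pow_le_pow_left₀ h0 key 2
  have e1 : (r * |r2 - r1| / 4) ^ 2 = r ^ 2 * (r2 - r1) ^ 2 / 16 := by
    rw [div_pow, mul_pow, sq_abs]; norm_num
  have e2 : (|x - r1| * |x - r2|) ^ 2 = ((x - r1) * (x - r2)) ^ 2 := by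
    rw [mul_pow, mul_pow, sq_abs, sq_abs]
  rw [e1, e2] at h3
  exact h3

lemma three_gap {r1 r2 x y z r : ℝ} (hr : 0 ≤ r) (hxy : r ≤ y - x) (hyz : r ≤ z - y) :
    r ^ 2 * (r2 - r1) ^ 2 / 16
      ≤ ((x - r1) * (x - r2)) ^ 2 + ((y - r1) * (y - r2)) ^ 2 + ((z - r1) * (z - r2)) ^ 2 := by
  have px := sq_nonneg ((x - r1) * (x - r2))
  have py := sq_nonneg ((y - r1) * (y - r2))
  have pz := sq_nonneg ((z - r1) * (z - r2))
  by_cases hx : r / 2 ≤ |x - r1| ∧ r / 2 ≤ |x - r2|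
  · have := one_far hr hx.1 hx.2; linarith
  by_cases hy : r / 2 ≤ |y - r1| ∧ r / 2 ≤ |y - r2|
  · have := one_far hr hy.1 hy.2; linarith
  by_cases hz : r / 2 ≤ |z - r1| ∧ r / 2 ≤ |z - r2|
  · have := one_far hr hz.1 hz.2; linarith
  exfalso
  have aux : ∀ w : ℝ, ¬ (r / 2 ≤ |w - r1| ∧ r / 2 ≤ |w - r2|) →
      |w - r1| < r / 2 ∨ |w - r2| < r / 2 := by
    intro w hw
    by_contra hcon
    push Not at hcon
    exact hw hcon
  rcases aux x hx with h1 | h1 <;> rcases aux y hy with h2 | h2 <;>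
    rcases aux z hz with h3 | h3 <;> rw [abs_lt] at h1 h2 h3 <;> linarith

/-- sums over sets with mutual distances at least one, by triples -/
lemma sum_trip (X : Finset ℝ) (hX : ∀ x ∈ X, ∀ y ∈ X, x ≠ y → 1 ≤ |x - y|) (F : ℝ → ℝ)
    (hF0 : ∀ x, 0 ≤ F x) (c : ℝ) (q : ℕ)
    (h3 : ∀ x ∈ X, ∀ y ∈ X, ∀ z ∈ X, (q : ℝ) ≤ y - x → (q : ℝ) ≤ z - y → c ≤ F x + F y + F z)
    (hq : 3 * q ≤ X.card) : q * c ≤ ∑ x ∈ X, F x := by
  classical
  set t := X.card with ht
  let g : Fin t → ℝ := fun i => X.orderEmbOfFin ht.symm i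
  have hgm : StrictMono g := (X.orderEmbOfFin ht.symm).strictMono
  have hgX : ∀ i, g i ∈ X := fun i => Finset.orderEmbOfFin_mem X ht.symm i
  have hg1 : ∀ i j, i ≠ j → 1 ≤ |g i - g j| := fun i j hij =>
    hX _ (hgX i) _ (hgX j) (fun h => hij (hgm.injective h))
  let G : ℕ → ℝ := fun k => if h : k < t then F (g ⟨k, h⟩) else 0
  have hG0 : ∀ k, 0 ≤ G k := by
    intro k
    simp only [G]
    split_ifs
    · exact hF0 _
    · exact le_rfl
  have hsum : ∑ x ∈ X, F x = ∑ k ∈ Finset.range t, G k := by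
    have e1 : ∑ x ∈ X, F x = ∑ i : Fin t, F (g i) := by
      have himg : X = Finset.univ.image g := by
        ext x
        constructor
        · intro hx
          have : x ∈ Set.range (X.orderEmbOfFin ht.symm) := by
            rw [Finset.range_orderEmbOfFin]; exact hx
          obtain ⟨i, hi⟩ := this
          exact Finset.mem_image.mpr ⟨i, Finset.mem_univ _, hi⟩
        · intro hx
          obtain ⟨i, _, hi⟩ := Finset.mem_image.mp hx
          rw [← hi]; exact hgX i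
      conv_lhs => rw [himg]
      rw [Finset.sum_image (fun i _ j _ h => hgm.injective h)]
    rw [e1, Finset.sum_range]
    refine Finset.sum_congr rfl fun i _ => ?_
    simp only [G]
    rw [dif_pos i.2]
  rw [hsum]
  have hsub : ∑ k ∈ Finset.range (q + q + q), G k ≤ ∑ k ∈ Finset.range t, G k := by
    apply Finset.sum_le_sum_of_subset_of_nonneg
    · intro k hk
      rw [Finset.mem_range] at hk ⊢
      omega
    · intro k _ _; exact hG0 k
  refine le_trans ?_ hsub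
  rw [Finset.sum_range_add, Finset.sum_range_add, ← Finset.sum_add_distrib,
    ← Finset.sum_add_distrib]
  have hterm : ∀ i ∈ Finset.range q, c ≤ G i + G (q + i) + G (q + q + i) := by
    intro i hi
    rw [Finset.mem_range] at hi
    have h1 : i < t := by omega
    have h2 : q + i < t := by omega
    have h4 : q + q + i < t := by omega
    simp only [G]
    rw [dif_pos h1, dif_pos h2, dif_pos h4]
    have g1 := emb_gap g hgm hg1 q i (by omega)
    have g2 := emb_gap g hgm hg1 q (q + i) (by omega)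
    have e1 : (⟨i + q, by omega⟩ : Fin t) = ⟨q + i, h2⟩ := by
      rw [Fin.mk.injEq]; omega
    have e2 : (⟨q + i + q, by omega⟩ : Fin t) = ⟨q + q + i, h4⟩ := by
      rw [Fin.mk.injEq]; omega
    rw [e1] at g1
    rw [e2] at g2
    exact h3 _ (hgX _) _ (hgX _) _ (hgX _) (by linarith) (by linarith)
  have := Finset.sum_le_sum hterm
  rw [Finset.sum_const, Finset.card_range, nsmul_eq_mul] at this
  exact this

/-- quadratic polynomials with two real roots -/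
lemma sum_gap (X : Finset ℝ) (hX : ∀ x ∈ X, ∀ y ∈ X, x ≠ y → 1 ≤ |x - y|) (r1 r2 : ℝ) (q : ℕ)
    (hq : 3 * q ≤ X.card) :
    (q : ℝ) ^ 3 * (r2 - r1) ^ 2 / 16 ≤ ∑ x ∈ X, ((x - r1) * (x - r2)) ^ 2 := by
  have h := sum_trip X hX (fun x => ((x - r1) * (x - r2)) ^ 2) (fun x => sq_nonneg _)
    ((q : ℝ) ^ 2 * (r2 - r1) ^ 2 / 16) q (fun x _ y _ z _ h1 h2 =>
      three_gap (Nat.cast_nonneg _) h1 h2) hq
  calc (q : ℝ) ^ 3 * (r2 - r1) ^ 2 / 16 = q * ((q : ℝ) ^ 2 * (r2 - r1) ^ 2 / 16) := by ring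
    _ ≤ _ := h

/-- squared distances to a point -/
lemma sum_lin (X : Finset ℝ) (hX : ∀ x ∈ X, ∀ y ∈ X, x ≠ y → 1 ≤ |x - y|) (r : ℝ) (q : ℕ)
    (hq : 3 * q ≤ X.card) : 2 * (q : ℝ) ^ 3 ≤ ∑ x ∈ X, (x - r) ^ 2 := by
  have h := sum_trip X hX (fun x => (x - r) ^ 2) (fun x => sq_nonneg _)
    (2 * (q : ℝ) ^ 2) q (fun x _ y _ z _ h1 h2 => by
      have hq0 : (0 : ℝ) ≤ q := Nat.cast_nonneg _
      have e1 : 2 * (q : ℝ) ≤ z - x := by linarith
      have e2 : (2 * (q : ℝ)) ^ 2 ≤ (z - x) ^ 2 := pow_le_pow_left₀ (by positivity) e1 2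
      nlinarith [sq_nonneg (x - r + (z - r)), sq_nonneg (y - r)]) hq
  calc 2 * (q : ℝ) ^ 3 = q * (2 * (q : ℝ) ^ 2) := by ring
    _ ≤ _ := h

/-- the large values: `x ^ 2 + b x + P` is `x (x + P / x + b)` -/
lemma sum_high (X : Finset ℝ) (hX : ∀ x ∈ X, ∀ y ∈ X, x ≠ y → 1 ≤ |x - y|) (b P s : ℝ)
    (hs : 0 < s) (hP0 : 0 ≤ P) (hP : 32 * P ≤ s ^ 2) (hXs : ∀ x ∈ X, s / 4 ≤ x) (q : ℕ)
    (hq : 3 * q ≤ X.card) :
    (q : ℝ) ^ 3 * s ^ 2 / 32 ≤ ∑ x ∈ X, (x ^ 2 + b * x + P) ^ 2 := by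
  have h := sum_trip X hX (fun x => (x ^ 2 + b * x + P) ^ 2) (fun x => sq_nonneg _)
    ((q : ℝ) ^ 2 * s ^ 2 / 32) q (fun x hx y _ z hz h1 h2 => by
      have hq0 : (0 : ℝ) ≤ q := Nat.cast_nonneg _
      have e1 : 2 * (q : ℝ) ≤ z - x := by linarith
      have hxs := hXs x hx
      have hzs := hXs z hz
      have hx0 : 0 < x := by linarith
      have hz0 : 0 < z := by linarith
      have hxz : s ^ 2 / 16 ≤ x * z := by nlinarith
      have f1 : x ^ 2 + b * x + P = x * (x + P / x + b) := by field_simp; ring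
      have f2 : z ^ 2 + b * z + P = z * (z + P / z + b) := by field_simp; ring
      set A := x + P / x + b with hA
      set B := z + P / z + b with hB
      have f3 : B - A = (z - x) * (1 - P / (x * z)) := by
        rw [hA, hB]; field_simp; ring
      have f4 : P / (x * z) ≤ 1 / 2 := by
        rw [div_le_iff₀ (by positivity)]
        linarith
      have f5 : (q : ℝ) ≤ B - A := by
        rw [f3]
        have : (2 * (q : ℝ)) * (1 / 2) ≤ (z - x) * (1 - P / (x * z)) :=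
          mul_le_mul e1 (by linarith) (by norm_num) (by linarith)
        linarith
      have f6 : (q : ℝ) ^ 2 ≤ (B - A) ^ 2 := pow_le_pow_left₀ hq0 f5 2
      have f7 : (q : ℝ) ^ 2 / 2 ≤ A ^ 2 + B ^ 2 := by nlinarith [sq_nonneg (A + B)]
      have f8 : s ^ 2 / 16 ≤ x ^ 2 := by nlinarith
      have f9 : s ^ 2 / 16 ≤ z ^ 2 := by nlinarith
      have f10 : s ^ 2 / 16 * A ^ 2 ≤ x ^ 2 * A ^ 2 :=
        mul_le_mul_of_nonneg_right f8 (sq_nonneg _)
      have f11 : s ^ 2 / 16 * B ^ 2 ≤ z ^ 2 * B ^ 2 :=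
        mul_le_mul_of_nonneg_right f9 (sq_nonneg _)
      have f12 : s ^ 2 / 16 * ((q : ℝ) ^ 2 / 2) ≤ s ^ 2 / 16 * (A ^ 2 + B ^ 2) :=
        mul_le_mul_of_nonneg_left f7 (by positivity)
      rw [f1, f2, mul_pow, mul_pow]
      have := sq_nonneg (y ^ 2 + b * y + P)
      linarith) hq
  calc (q : ℝ) ^ 3 * s ^ 2 / 32 = q * ((q : ℝ) ^ 2 * s ^ 2 / 32) := by ring
    _ ≤ _ := h

end Val3
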