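import Pool.Agent.Val3.Forms

/-!
The key inequality: `q ^ 5 / 2 ≤ (θ1 + t) (θ1 - θ2) n` and `q ^ 5 / 2 ≤ (t - θ2) (θ1 - θ2) n` for the
number `t ≥ 3 q` of distinct values of the Perron vector.
-/

set_option autoImplicit false
set_option linter.unusedSectionVars false

namespace Val3

open Finset TE TS

variable {V : Type*} [Fintype V] [DecidableEq V]
variable {G : SimpleGraph V} [DecidableRel G.Adj] {T θ0 θ1 θ2 : ℝ} {α : V → ℝ}

noncomputable def kap (α : V → ℝ) : ℝ := (∑ x, α x) / ∑ x, α x ^ 2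

noncomputable def ww (α : V → ℝ) (x : V) : ℝ := 1 - kap α * α x

lemma N_pos (h : Dat G T θ0 θ1 θ2 α) : 0 < ∑ x, α x ^ 2 := by
  obtain ⟨x0⟩ := h.conn.nonempty
  exact Finset.sum_pos (fun x _ => pow_pos (h.pos x) 2) ⟨x0, Finset.mem_univ _⟩

lemma kap_mul (h : Dat G T θ0 θ1 θ2 α) : kap α * ∑ x, α x ^ 2 = ∑ x, α x := by
  unfold kap
  exact div_mul_cancel₀ _ (N_pos h).ne'

lemma ww_perp (h : Dat G T θ0 θ1 θ2 α) : ∑ x, α x * ww α x = 0 := by
  have h1 : ∑ x, α x * ww α x = ∑ x, α x - kap α * ∑ x, α x ^ 2 := by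
    rw [Finset.mul_sum, ← Finset.sum_sub_distrib]
    refine Finset.sum_congr rfl fun x _ => ?_
    unfold ww; ring
  rw [h1, kap_mul h]; ring

lemma ww_sq (h : Dat G T θ0 θ1 θ2 α) : ∑ x, ww α x ^ 2 ≤ Fintype.card V := by
  have h1 : ∑ x, ww α x ^ 2 = Fintype.card V - kap α * ∑ x, α x := by
    have h2 : ∀ x, ww α x ^ 2 = 1 - kap α * α x - kap α * (α x * ww α x) := by
      intro x; unfold ww; ring
    rw [Finset.sum_congr rfl fun x _ => h2 x, Finset.sum_sub_distrib, Finset.sum_sub_distrib,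
      ← Finset.mul_sum, ← Finset.mul_sum, ww_perp h]
    simp
  have h2 : 0 ≤ kap α * ∑ x, α x := by
    rw [← kap_mul h]
    have := N_pos h
    have e : kap α * (kap α * ∑ x, α x ^ 2) = kap α ^ 2 * ∑ x, α x ^ 2 := by ring
    rw [e]; positivity
  linarith

lemma ww_A (h : Dat G T θ0 θ1 θ2 α) (x : V) :
    ∑ y, ad G x y * ww α y = α x ^ 2 - θ1 * θ2 - kap α * (θ0 * α x) := by
  have h1 : ∑ y, ad G x y * ww α y = ∑ y, ad G x y - kap α * ∑ y, ad G x y * α y := by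
    rw [Finset.mul_sum, ← Finset.sum_sub_distrib]
    refine Finset.sum_congr rfl fun y _ => ?_
    unfold ww; ring
  rw [h1, sum_ad, h.eig x, h.diag x]

/-- extension of a function of the value to the vertices -/
def zz (X : Finset ℝ) (rep : ℝ → V) (α : V → ℝ) (φ : ℝ → ℝ) (v : V) : ℝ :=
  if v ∈ X.image rep then φ (α v) else 0

lemma sum_zz (X : Finset ℝ) (rep : ℝ → V) (hrep : ∀ x ∈ X, α (rep x) = x) (φ : ℝ → ℝ)
    (g : V → ℝ) : ∑ v, zz X rep α φ v * g v = ∑ x ∈ X, φ x * g (rep x) := by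
  have h1 : ∑ v, zz X rep α φ v * g v = ∑ v ∈ X.image rep, φ (α v) * g v := by
    rw [← Finset.sum_subset (Finset.subset_univ (X.image rep))]
    · refine Finset.sum_congr rfl fun v hv => ?_
      unfold zz
      rw [if_pos hv]
    · intro v _ hv
      unfold zz
      rw [if_neg hv]; ring
  rw [h1, Finset.sum_image]
  · exact Finset.sum_congr rfl fun x hx => by rw [hrep x hx]
  · intro x hx y hy hxy
    have := congrArg α hxy
    rwa [hrep x hx, hrep y hy] at this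

lemma sum_zz_sq (X : Finset ℝ) (rep : ℝ → V) (hrep : ∀ x ∈ X, α (rep x) = x) (φ : ℝ → ℝ) :
    ∑ v, zz X rep α φ v ^ 2 = ∑ x ∈ X, φ x ^ 2 := by
  have h1 := sum_zz X rep hrep φ (zz X rep α φ)
  have h2 : ∑ v, zz X rep α φ v ^ 2 = ∑ v, zz X rep α φ v * zz X rep α φ v :=
    Finset.sum_congr rfl fun v _ => by ring
  rw [h2, h1]
  refine Finset.sum_congr rfl fun x hx => ?_
  unfold zz
  rw [if_pos (Finset.mem_image_of_mem rep hx), hrep x hx]; ring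

lemma zz_qf (X : Finset ℝ) (rep : ℝ → V) (hrep : ∀ x ∈ X, α (rep x) = x) (φ : ℝ → ℝ) :
    |qf G (zz X rep α φ)| ≤ X.card * ∑ x ∈ X, φ x ^ 2 := by
  have h1 := qf_abs (G := G) (zz X rep α φ) (X.image rep) (fun v hv => by
    unfold zz; rw [if_neg hv])
  rw [sum_zz_sq X rep hrep] at h1
  have h2 : ((X.image rep).card : ℝ) ≤ X.card := by exact_mod_cast Finset.card_image_le
  have h3 : 0 ≤ ∑ x ∈ X, φ x ^ 2 := Finset.sum_nonneg fun _ _ => sq_nonneg _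
  exact h1.trans (mul_le_mul_of_nonneg_right h2 h3)

lemma fin_step {Z a D : ℝ} (hD : 0 ≤ D) (ha : 0 ≤ a) (hZ : 0 ≤ Z) (h : Z ^ 2 ≤ (a * Z) * D) :
    Z ≤ a * D := by
  rcases hZ.eq_or_lt with h0 | h0
  · rw [← h0]; positivity
  · have h1 : Z * Z ≤ Z * (a * D) := by nlinarith
    exact le_of_mul_le_mul_left h1 h0

theorem key2 (h : Dat G T θ0 θ1 θ2 α) (h1 : 0 ≤ θ1) (X : Finset ℝ) (rep : ℝ → V)
    (hrep : ∀ x ∈ X, α (rep x) = x) (hX : ∀ x ∈ X, ∀ y ∈ X, x ≠ y → 1 ≤ |x - y|) (q : ℕ)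
    (hq : 3 * q ≤ X.card) :
    (q : ℝ) ^ 5 / 2 ≤ (θ1 + X.card) * ((θ1 - θ2) * Fintype.card V) := by
  have h12 := h.h12
  set b : ℝ := -(kap α * θ0) + θ1 * kap α with hb
  set e : ℝ := -(θ1 * θ2) - θ1 with he
  set φ0 : ℝ → ℝ := fun x => x ^ 2 + b * x + e with hφ0
  set ρ : ℝ := (∑ x ∈ X, φ0 x * x) / ∑ x ∈ X, x ^ 2 with hρ
  set φ : ℝ → ℝ := fun x => x ^ 2 + (b - ρ) * x + e with hφ
  have hφe : ∀ x, φ x = φ0 x - ρ * x := by intro x; rw [hφ, hφ0]; ring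
  have hρ1 : ρ * ∑ x ∈ X, x ^ 2 = ∑ x ∈ X, φ0 x * x := by
    by_cases h0 : ∑ x ∈ X, x ^ 2 = 0
    · rw [h0, mul_zero]
      symm
      apply Finset.sum_eq_zero
      intro x hx
      have := (Finset.sum_eq_zero_iff_of_nonneg (fun y _ => sq_nonneg y)).mp h0 x hx
      have hx0 : x = 0 := by simpa using this
      rw [hx0]; ring
    · rw [hρ]; exact div_mul_cancel₀ _ h0
  have horth : ∑ x ∈ X, φ x * x = 0 := by
    have : ∑ x ∈ X, φ x * x = ∑ x ∈ X, φ0 x * x - ρ * ∑ x ∈ X, x ^ 2 := by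
      rw [Finset.mul_sum, ← Finset.sum_sub_distrib]
      exact Finset.sum_congr rfl fun x _ => by rw [hφe]; ring
    rw [this, hρ1]; ring
  set Z : ℝ := ∑ x ∈ X, φ x ^ 2 with hZ
  have hZ0 : 0 ≤ Z := Finset.sum_nonneg fun _ _ => sq_nonneg _
  have hcs := cs2 h (zz X rep α φ) (ww α) (ww_perp h)
  have e1 : ∑ v, zz X rep α φ v * ((∑ y, ad G v y * ww α y) - θ1 * ww α v) = Z := by
    rw [sum_zz X rep hrep, hZ]
    have : ∑ x ∈ X, φ x ^ 2 = ∑ x ∈ X, (φ x * φ0 x - ρ * (φ x * x)) :=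
      Finset.sum_congr rfl fun x _ => by rw [sq]; nth_rw 2 [hφe]; ring
    rw [this, Finset.sum_sub_distrib, ← Finset.mul_sum, horth, mul_zero, sub_zero]
    refine Finset.sum_congr rfl fun x hx => ?_
    rw [ww_A h, hrep x hx]
    unfold ww
    rw [hrep x hx, hφ0, hb, he]
    ring
  have e2 : ∑ v, α v * zz X rep α φ v = 0 := by
    have : ∑ v, α v * zz X rep α φ v = ∑ v, zz X rep α φ v * α v :=
      Finset.sum_congr rfl fun v _ => by ring
    rw [this, sum_zz X rep hrep, ← horth]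
    exact Finset.sum_congr rfl fun x hx => by rw [hrep x hx]
  have e3 := zz_qf (G := G) X rep hrep φ
  rw [← hZ] at e3
  have e4 := (abs_le.mp e3).1
  have e5 : (0 : ℝ) ^ 2 / (θ0 - θ2) = 0 := by simp
  rw [e1, e2, e5, sum_zz_sq X rep hrep, ← hZ] at hcs
  have e6 : θ1 * ∑ x, ww α x ^ 2 - qf G (ww α) ≤ (θ1 - θ2) * Fintype.card V := by
    have := qf_lo h (ww α)
    have h3 := mul_le_mul_of_nonneg_left (ww_sq h) (by linarith : 0 ≤ θ1 - θ2)
    linarith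
  have e7 : θ1 * Z - qf G (zz X rep α φ) + 0 ≤ (θ1 + X.card) * Z := by linarith
  have hD : 0 ≤ (θ1 - θ2) * Fintype.card V := mul_nonneg (by linarith) (Nat.cast_nonneg _)
  have ha : 0 ≤ θ1 + X.card := add_nonneg h1 (Nat.cast_nonneg _)
  have e8 : Z ^ 2 ≤ ((θ1 + X.card) * Z) * ((θ1 - θ2) * Fintype.card V) := by
    refine hcs.trans ?_
    have f1 : 0 ≤ θ1 * ∑ x, ww α x ^ 2 - qf G (ww α) := by
      have := qf_up h (ww α) (ww_perp h)
      linarith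
    calc _ ≤ ((θ1 + X.card) * Z) * (θ1 * ∑ x, ww α x ^ 2 - qf G (ww α)) :=
          mul_le_mul_of_nonneg_right e7 f1
      _ ≤ _ := mul_le_mul_of_nonneg_left e6 (mul_nonneg ha hZ0)
  exact (sum_quad X hX (b - ρ) e q hq).trans (fin_step hD ha hZ0 e8)

theorem key1 (h : Dat G T θ0 θ1 θ2 α) (h2 : θ2 ≤ 0) (X : Finset ℝ) (rep : ℝ → V)
    (hrep : ∀ x ∈ X, α (rep x) = x) (hX : ∀ x ∈ X, ∀ y ∈ X, x ≠ y → 1 ≤ |x - y|) (q : ℕ)
    (hq : 3 * q ≤ X.card) :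
    (q : ℝ) ^ 5 / 2 ≤ (-θ2 + X.card) * ((θ1 - θ2) * Fintype.card V) := by
  have h12 := h.h12
  set b : ℝ := -(kap α * θ0) + θ2 * kap α with hb
  set e : ℝ := -(θ1 * θ2) - θ2 with he
  set φ : ℝ → ℝ := fun x => x ^ 2 + b * x + e with hφ
  set Z : ℝ := ∑ x ∈ X, φ x ^ 2 with hZ
  have hZ0 : 0 ≤ Z := Finset.sum_nonneg fun _ _ => sq_nonneg _
  have hcs := cs1 h (zz X rep α φ) (ww α) (ww_perp h)
  have e1 : ∑ v, zz X rep α φ v * ((∑ y, ad G v y * ww α y) - θ2 * ww α v) = Z := by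
    rw [sum_zz X rep hrep, hZ]
    refine Finset.sum_congr rfl fun x hx => ?_
    rw [ww_A h, hrep x hx]
    unfold ww
    rw [hrep x hx, hφ, hb, he]
    ring
  have e3 := zz_qf (G := G) X rep hrep φ
  rw [← hZ] at e3
  have e4 := (abs_le.mp e3).2
  have e5 : 0 ≤ (∑ v, α v * zz X rep α φ v) ^ 2 / (θ0 - θ1) :=
    div_nonneg (sq_nonneg _) (by linarith [h.h01])
  rw [e1, sum_zz_sq X rep hrep, ← hZ] at hcs
  have e6 : qf G (ww α) - θ2 * ∑ x, ww α x ^ 2 ≤ (θ1 - θ2) * Fintype.card V := by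
    have := qf_up h (ww α) (ww_perp h)
    have h3 := mul_le_mul_of_nonneg_left (ww_sq h) (by linarith : 0 ≤ θ1 - θ2)
    linarith
  have e7 : qf G (zz X rep α φ) - θ2 * Z - (∑ v, α v * zz X rep α φ v) ^ 2 / (θ0 - θ1)
      ≤ (-θ2 + X.card) * Z := by linarith
  have hD : 0 ≤ (θ1 - θ2) * Fintype.card V := mul_nonneg (by linarith) (Nat.cast_nonneg _)
  have ha : 0 ≤ -θ2 + X.card := add_nonneg (by linarith) (Nat.cast_nonneg _)
  have e8 : Z ^ 2 ≤ ((-θ2 + X.card) * Z) * ((θ1 - θ2) * Fintype.card V) := by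
    refine hcs.trans ?_
    have f1 : 0 ≤ qf G (ww α) - θ2 * ∑ x, ww α x ^ 2 := by
      have := qf_lo h (ww α)
      linarith
    calc _ ≤ ((-θ2 + X.card) * Z) * (qf G (ww α) - θ2 * ∑ x, ww α x ^ 2) :=
          mul_le_mul_of_nonneg_right e7 f1
      _ ≤ _ := mul_le_mul_of_nonneg_left e6 (mul_nonneg ha hZ0)
  exact (sum_quad X hX b e q hq).trans (fin_step hD ha hZ0 e8)

end Val3
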