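import Pool.Agent.Val3.Key
import Pool.Agent.Val3.Gap

/-!
The inequalities for the values of the Perron vector with the exact norm of the projection of the
constant vector.
-/

set_option autoImplicit false
set_option linter.unusedSectionVars false

namespace Val3

open Finset TE TS

variable {V : Type*} [Fintype V] [DecidableEq V]
variable {G : SimpleGraph V} [DecidableRel G.Adj] {T θ0 θ1 θ2 : ℝ} {α : V → ℝ}

/-- square of the norm of `w` -/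
noncomputable def WW (α : V → ℝ) : ℝ := ∑ x, ww α x ^ 2

lemma WW_nonneg : 0 ≤ WW α := Finset.sum_nonneg fun _ _ => sq_nonneg _

/-- the form of `θ1`, orthogonalised -/
theorem key2o (h : Dat G T θ0 θ1 θ2 α) (h1 : 0 ≤ θ1) (X : Finset ℝ) (rep : ℝ → V)
    (hrep : ∀ x ∈ X, α (rep x) = x) : ∃ b : ℝ,
    ∑ x ∈ X, (x ^ 2 + b * x + (-(θ1 * θ2) - θ1)) ^ 2
      ≤ (θ1 + X.card) * ((θ1 - θ2) * WW α) := by
  have h12 := h.h12
  set b : ℝ := -(kap α * θ0) + θ1 * kap α with hb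
  set e : ℝ := -(θ1 * θ2) - θ1 with he
  set φ0 : ℝ → ℝ := fun x => x ^ 2 + b * x + e with hφ0
  set ρ : ℝ := (∑ x ∈ X, φ0 x * x) / ∑ x ∈ X, x ^ 2 with hρ
  refine ⟨b - ρ, ?_⟩
  set φ : ℝ → ℝ := fun x => x ^ 2 + (b - ρ) * x + e with hφ
  have hφe : ∀ x, φ x = φ0 x - ρ * x := by intro x; rw [hφ, hφ0]; ring
  have hρ1 : ρ * ∑ x ∈ X, x ^ 2 = ∑ x ∈ X, φ0 x * x := by
    by_cases h0 : ∑ x ∈ X, x ^ 2 = 0
    · rw [h0, mul_zero]
      symm
      apply Finset.sum_eq_zero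
      intro x hx
      have := (Finset.sum_eq_zero_iff_of_nonneg (fun y _ => sq_nonneg y)).mp h0 x hx
      have hx0 : x = 0 := by simpa using this
      rw [hx0]; ring
    · rw [hρ]; exact div_mul_cancel₀ _ h0
  have horth : ∑ x ∈ X, φ x * x = 0 := by
    have : ∑ x ∈ X, φ x * x = ∑ x ∈ X, φ0 x * x - ρ * ∑ x ∈ X, x ^ 2 := by
      rw [Finset.mul_sum, ← Finset.sum_sub_distrib]
      exact Finset.sum_congr rfl fun x _ => by rw [hφe]; ring
    rw [this, hρ1]; ring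
  set Z : ℝ := ∑ x ∈ X, φ x ^ 2 with hZ
  have hZ0 : 0 ≤ Z := Finset.sum_nonneg fun _ _ => sq_nonneg _
  have hcs := cs2 h (zz X rep α φ) (ww α) (ww_perp h)
  have e1 : ∑ v, zz X rep α φ v * ((∑ y, ad G v y * ww α y) - θ1 * ww α v) = Z := by
    rw [sum_zz X rep hrep, hZ]
    have : ∑ x ∈ X, φ x ^ 2 = ∑ x ∈ X, (φ x * φ0 x - ρ * (φ x * x)) :=
      Finset.sum_congr rfl fun x _ => by rw [sq]; nth_rw 2 [hφe]; ring
    rw [this, Finset.sum_sub_distrib, ← Finset.mul_sum, horth, mul_zero, sub_zero]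
    refine Finset.sum_congr rfl fun x hx => ?_
    rw [ww_A h, hrep x hx]
    unfold ww
    rw [hrep x hx, hφ0, hb, he]
    ring
  have e2 : ∑ v, α v * zz X rep α φ v = 0 := by
    have : ∑ v, α v * zz X rep α φ v = ∑ v, zz X rep α φ v * α v :=
      Finset.sum_congr rfl fun v _ => by ring
    rw [this, sum_zz X rep hrep, ← horth]
    exact Finset.sum_congr rfl fun x hx => by rw [hrep x hx]
  have e3 := zz_qf (G := G) X rep hrep φ
  rw [← hZ] at e3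
  have e4 := (abs_le.mp e3).1
  have e5 : (0 : ℝ) ^ 2 / (θ0 - θ2) = 0 := by simp
  rw [e1, e2, e5, sum_zz_sq X rep hrep, ← hZ] at hcs
  have e6 : θ1 * ∑ x, ww α x ^ 2 - qf G (ww α) ≤ (θ1 - θ2) * WW α := by
    have := qf_lo h (ww α)
    unfold WW
    linarith
  have e7 : θ1 * Z - qf G (zz X rep α φ) + 0 ≤ (θ1 + X.card) * Z := by linarith
  have hD : 0 ≤ (θ1 - θ2) * WW α := mul_nonneg (by linarith) WW_nonneg
  have ha : 0 ≤ θ1 + X.card := add_nonneg h1 (Nat.cast_nonneg _)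
  have e8 : Z ^ 2 ≤ ((θ1 + X.card) * Z) * ((θ1 - θ2) * WW α) := by
    refine hcs.trans ?_
    have f1 : 0 ≤ θ1 * ∑ x, ww α x ^ 2 - qf G (ww α) := by
      have := qf_up h (ww α) (ww_perp h)
      linarith
    calc _ ≤ ((θ1 + X.card) * Z) * (θ1 * ∑ x, ww α x ^ 2 - qf G (ww α)) :=
          mul_le_mul_of_nonneg_right e7 f1
      _ ≤ _ := mul_le_mul_of_nonneg_left e6 (mul_nonneg ha hZ0)
  exact fin_step hD ha hZ0 e8

/-- the form of `θ1`, not orthogonalised -/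
theorem key2n (h : Dat G T θ0 θ1 θ2 α) (h1 : 0 ≤ θ1) (X : Finset ℝ) (rep : ℝ → V)
    (hrep : ∀ x ∈ X, α (rep x) = x) :
    ∑ x ∈ X, (x ^ 2 - kap α * (θ0 - θ1) * x + (-(θ1 * θ2) - θ1)) ^ 2
      ≤ (θ1 + X.card + (∑ x ∈ X, x ^ 2) / (θ0 - θ2)) * ((θ1 - θ2) * WW α) := by
  have h12 := h.h12
  have h01 := h.h01
  set φ : ℝ → ℝ := fun x => x ^ 2 - kap α * (θ0 - θ1) * x + (-(θ1 * θ2) - θ1) with hφ
  set Z : ℝ := ∑ x ∈ X, φ x ^ 2 with hZ
  have hZ0 : 0 ≤ Z := Finset.sum_nonneg fun _ _ => sq_nonneg _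
  have hcs := cs2 h (zz X rep α φ) (ww α) (ww_perp h)
  have e1 : ∑ v, zz X rep α φ v * ((∑ y, ad G v y * ww α y) - θ1 * ww α v) = Z := by
    rw [sum_zz X rep hrep, hZ]
    refine Finset.sum_congr rfl fun x hx => ?_
    rw [ww_A h, hrep x hx]
    unfold ww
    rw [hrep x hx, hφ]
    ring
  have e2 : (∑ v, α v * zz X rep α φ v) ^ 2 ≤ (∑ x ∈ X, x ^ 2) * Z := by
    have : ∑ v, α v * zz X rep α φ v = ∑ v, zz X rep α φ v * α v :=
      Finset.sum_congr rfl fun v _ => by ring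
    rw [this, sum_zz X rep hrep]
    have e3 : ∑ x ∈ X, φ x * α (rep x) = ∑ x ∈ X, x * φ x :=
      Finset.sum_congr rfl fun x hx => by rw [hrep x hx]; ring
    rw [e3, hZ]
    exact Finset.sum_mul_sq_le_sq_mul_sq _ _ _
  have e3 := zz_qf (G := G) X rep hrep φ
  rw [← hZ] at e3
  have e4 := (abs_le.mp e3).1
  have hb : 0 < θ0 - θ2 := by linarith
  have e5 : (∑ v, α v * zz X rep α φ v) ^ 2 / (θ0 - θ2)
      ≤ (∑ x ∈ X, x ^ 2) / (θ0 - θ2) * Z := by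
    rw [div_mul_eq_mul_div]
    exact div_le_div_of_nonneg_right e2 hb.le
  rw [e1, sum_zz_sq X rep hrep, ← hZ] at hcs
  have e6 : θ1 * ∑ x, ww α x ^ 2 - qf G (ww α) ≤ (θ1 - θ2) * WW α := by
    have := qf_lo h (ww α)
    unfold WW
    linarith
  have e7 : θ1 * Z - qf G (zz X rep α φ) + (∑ v, α v * zz X rep α φ v) ^ 2 / (θ0 - θ2)
      ≤ (θ1 + X.card + (∑ x ∈ X, x ^ 2) / (θ0 - θ2)) * Z := by linarith
  have hD : 0 ≤ (θ1 - θ2) * WW α := mul_nonneg (by linarith) WW_nonneg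
  have hT : 0 ≤ (∑ x ∈ X, x ^ 2) / (θ0 - θ2) :=
    div_nonneg (Finset.sum_nonneg fun _ _ => sq_nonneg _) hb.le
  have ha : 0 ≤ θ1 + X.card + (∑ x ∈ X, x ^ 2) / (θ0 - θ2) :=
    add_nonneg (add_nonneg h1 (Nat.cast_nonneg _)) hT
  have e8 : Z ^ 2 ≤ ((θ1 + X.card + (∑ x ∈ X, x ^ 2) / (θ0 - θ2)) * Z)
      * ((θ1 - θ2) * WW α) := by
    refine hcs.trans ?_
    have f1 : 0 ≤ θ1 * ∑ x, ww α x ^ 2 - qf G (ww α) := by
      have := qf_up h (ww α) (ww_perp h)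
      linarith
    calc _ ≤ ((θ1 + X.card + (∑ x ∈ X, x ^ 2) / (θ0 - θ2)) * Z)
          * (θ1 * ∑ x, ww α x ^ 2 - qf G (ww α)) := mul_le_mul_of_nonneg_right e7 f1
      _ ≤ _ := mul_le_mul_of_nonneg_left e6 (mul_nonneg ha hZ0)
  exact fin_step hD ha hZ0 e8

/-- the form of `θ2` -/
theorem key1g (h : Dat G T θ0 θ1 θ2 α) (h2 : θ2 ≤ 0) (X : Finset ℝ) (rep : ℝ → V)
    (hrep : ∀ x ∈ X, α (rep x) = x) :
    ∑ x ∈ X, (x ^ 2 - kap α * (θ0 - θ2) * x + (-(θ1 * θ2) - θ2)) ^ 2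
      ≤ (-θ2 + X.card) * ((θ1 - θ2) * WW α) := by
  have h12 := h.h12
  set φ : ℝ → ℝ := fun x => x ^ 2 - kap α * (θ0 - θ2) * x + (-(θ1 * θ2) - θ2) with hφ
  set Z : ℝ := ∑ x ∈ X, φ x ^ 2 with hZ
  have hZ0 : 0 ≤ Z := Finset.sum_nonneg fun _ _ => sq_nonneg _
  have hcs := cs1 h (zz X rep α φ) (ww α) (ww_perp h)
  have e1 : ∑ v, zz X rep α φ v * ((∑ y, ad G v y * ww α y) - θ2 * ww α v) = Z := by
    rw [sum_zz X rep hrep, hZ]
    refine Finset.sum_congr rfl fun x hx => ?_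
    rw [ww_A h, hrep x hx]
    unfold ww
    rw [hrep x hx, hφ]
    ring
  have e3 := zz_qf (G := G) X rep hrep φ
  rw [← hZ] at e3
  have e4 := (abs_le.mp e3).2
  have e5 : 0 ≤ (∑ v, α v * zz X rep α φ v) ^ 2 / (θ0 - θ1) :=
    div_nonneg (sq_nonneg _) (by linarith [h.h01])
  rw [e1, sum_zz_sq X rep hrep, ← hZ] at hcs
  have e6 : qf G (ww α) - θ2 * ∑ x, ww α x ^ 2 ≤ (θ1 - θ2) * WW α := by
    have := qf_up h (ww α) (ww_perp h)
    unfold WW
    linarith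
  have e7 : qf G (zz X rep α φ) - θ2 * Z - (∑ v, α v * zz X rep α φ v) ^ 2 / (θ0 - θ1)
      ≤ (-θ2 + X.card) * Z := by linarith
  have hD : 0 ≤ (θ1 - θ2) * WW α := mul_nonneg (by linarith) WW_nonneg
  have ha : 0 ≤ -θ2 + X.card := add_nonneg (by linarith) (Nat.cast_nonneg _)
  have e8 : Z ^ 2 ≤ ((-θ2 + X.card) * Z) * ((θ1 - θ2) * WW α) := by
    refine hcs.trans ?_
    have f1 : 0 ≤ qf G (ww α) - θ2 * ∑ x, ww α x ^ 2 := by
      have := qf_lo h (ww α)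
      linarith
    calc _ ≤ ((-θ2 + X.card) * Z) * (qf G (ww α) - θ2 * ∑ x, ww α x ^ 2) :=
          mul_le_mul_of_nonneg_right e7 f1
      _ ≤ _ := mul_le_mul_of_nonneg_left e6 (mul_nonneg ha hZ0)
  exact fin_step hD ha hZ0 e8

/-! ### exact relations -/

lemma WW_eq (h : Dat G T θ0 θ1 θ2 α) :
    WW α = Fintype.card V - kap α ^ 2 * ((θ0 - θ1) * (θ0 - θ2)) := by
  have h1 : ∑ x, ww α x ^ 2 = Fintype.card V - kap α * ∑ x, α x := by
    have h2 : ∀ x, ww α x ^ 2 = 1 - kap α * α x - kap α * (α x * ww α x) := by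
      intro x; unfold ww; ring
    rw [Finset.sum_congr rfl fun x _ => h2 x, Finset.sum_sub_distrib, Finset.sum_sub_distrib,
      ← Finset.mul_sum, ← Finset.mul_sum, ww_perp h]
    simp
  unfold WW
  rw [h1, ← kap_mul h, norm_sq h]; ring

lemma qf_ww (h : Dat G T θ0 θ1 θ2 α) :
    qf G (ww α) = (θ0 - θ1) * (θ0 - θ2) - Fintype.card V * (θ1 * θ2)
      - kap α ^ 2 * (θ0 * ((θ0 - θ1) * (θ0 - θ2))) := by
  have e1 : ∑ x, (∑ y, ad G x y * ww α y) = qf G (ww α) := by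
    have a1 : ∀ x, (∑ y, ad G x y * ww α y) = ww α x * (∑ y, ad G x y * ww α y)
        + kap α * (α x * ∑ y, ad G x y * ww α y) := by
      intro x
      have : (1 : ℝ) = ww α x + kap α * α x := by unfold ww; ring
      calc (∑ y, ad G x y * ww α y) = 1 * ∑ y, ad G x y * ww α y := by ring
        _ = (ww α x + kap α * α x) * ∑ y, ad G x y * ww α y := by rw [← this]
        _ = _ := by ring
    have a2 : ∑ x, α x * ∑ y, ad G x y * ww α y = 0 := by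
      rw [ad_adjoint]
      have : ∀ x, (∑ y, ad G x y * α y) * ww α x = θ0 * (α x * ww α x) := by
        intro x; rw [h.eig x]; ring
      rw [Finset.sum_congr rfl fun x _ => this x, ← Finset.mul_sum, ww_perp h, mul_zero]
    rw [Finset.sum_congr rfl fun x _ => a1 x, Finset.sum_add_distrib, ← Finset.mul_sum, a2]
    unfold qf
    ring
  rw [← e1, Finset.sum_congr rfl fun x _ => ww_A h x]
  have e2 : ∑ x, (α x ^ 2 - θ1 * θ2 - kap α * (θ0 * α x))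
      = ∑ x, α x ^ 2 - Fintype.card V * (θ1 * θ2) - kap α * (θ0 * ∑ x, α x) := by
    rw [Finset.sum_sub_distrib, Finset.sum_sub_distrib, Finset.mul_sum, Finset.mul_sum,
      Finset.sum_const, Finset.card_univ, nsmul_eq_mul]
  rw [e2, ← kap_mul h, norm_sq h]
  ring

/-- relation (R_a) -/
lemma rel_a (h : Dat G T θ0 θ1 θ2 α) :
    (θ0 - θ1) * (θ0 - θ2) + Fintype.card V * (-(θ1 * θ2) - θ1)
      ≤ kap α ^ 2 * ((θ0 - θ1) ^ 2 * (θ0 - θ2)) := by
  have h1 := qf_up h (ww α) (ww_perp h)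
  rw [qf_ww h] at h1
  have h2 := WW_eq h
  unfold WW at h2
  rw [h2] at h1
  linarith

end Val3
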