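import Pool.Agent.Val3.Key
import Pool.Agent.Val3.Abs
import Pool.Agent.TS.Zero

/-!
The number of distinct values of the Perron vector: `t ≤ 20 n ^ (7 / 16)`.
-/

set_option autoImplicit false
set_option linter.unusedSectionVars false

namespace Val3

open Finset TE TS

variable {V : Type*} [Fintype V] [DecidableEq V]
variable {G : SimpleGraph V} [DecidableRel G.Adj] {T θ0 θ1 θ2 : ℝ} {α : V → ℝ}

lemma th2_lt (h : Dat G T θ0 θ1 θ2 α) (hreg : ¬ ∃ d, G.IsRegularOfDegree d) : θ2 < -1 := by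
  have hex : ∃ x y, G.Adj x y ∧ α x ≠ α y := by
    by_contra hcon
    push Not at hcon
    exact hreg (h.reg_of_const hcon)
  obtain ⟨x, y, hxy, hne⟩ := hex
  have hxny : x ≠ y := hxy.ne
  have key := form1 h (fun w => (if w = x then (1 : ℝ) else 0) - (if w = y then 1 else 0))
  have e1 : ∑ w, ((if w = x then (1 : ℝ) else 0) - (if w = y then 1 else 0)) ^ 2 = 2 := by
    have : ∀ w, ((if w = x then (1 : ℝ) else 0) - (if w = y then 1 else 0)) ^ 2
        = (if w = x then 1 else 0) + (if w = y then 1 else 0) := by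
      intro w
      by_cases h1 : w = x
      · simp [h1, hxny]
      · by_cases h2 : w = y
        · simp [h2, Ne.symm hxny]
        · simp [h1, h2]
    rw [Finset.sum_congr rfl fun w _ => this w, Finset.sum_add_distrib]
    simp
    norm_num
  have e3 : ∑ w, α w * ((if w = x then (1 : ℝ) else 0) - (if w = y then 1 else 0))
      = α x - α y := by
    have : ∀ w, α w * ((if w = x then (1 : ℝ) else 0) - (if w = y then 1 else 0))
        = (if w = x then α w else 0) - (if w = y then α w else 0) := by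
      intro w
      split_ifs <;> ring
    rw [Finset.sum_congr rfl fun w _ => this w, Finset.sum_sub_distrib]
    simp
  have e4 : qf G (fun w => (if w = x then (1 : ℝ) else 0) - (if w = y then 1 else 0)) = -2 := by
    rw [qf_clq _ {x, y}]
    · rw [e1, Finset.sum_sub_distrib]
      simp
    · intro u hu v hv huv
      rw [Finset.mem_insert, Finset.mem_singleton] at hu hv
      rcases hu with rfl | rfl <;> rcases hv with rfl | rfl
      · exact absurd rfl huv
      · exact hxy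
      · exact hxy.symm
      · exact absurd rfl huv
    · intro w hw
      rw [Finset.mem_insert, Finset.mem_singleton] at hw
      push Not at hw
      simp [hw.1, hw.2]
  rw [e1, e3, e4] at key
  have h1 : 0 < (α x - α y) ^ 2 / (θ0 - θ1) :=
    div_pos (by have := sub_ne_zero.mpr hne; positivity) (by linarith [h.h01])
  linarith

/-- `Θ ^ 4 ≤ 36 n ^ 3` from `Θ ^ 2 m ≤ 3 n ^ 2` and the absolute bound -/
lemma num_quart {Θ n : ℝ} {m : ℕ} (hn : 1 < n) (h1 : Θ ^ 2 * m ≤ 3 * n ^ 2)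
    (h2 : n ≤ ((m : ℝ) + 1) ^ 2) : Θ ^ 4 ≤ 36 * n ^ 3 := by
  have hm : 1 ≤ m := by
    by_contra hcon
    have : m = 0 := by omega
    rw [this] at h2
    norm_num at h2
    linarith
  have hm' : (1 : ℝ) ≤ m := by exact_mod_cast hm
  have h3 : n ≤ 4 * (m : ℝ) ^ 2 := by nlinarith
  have h4 : 0 ≤ Θ ^ 2 * m := by positivity
  have h5 : (Θ ^ 2 * m) ^ 2 ≤ (3 * n ^ 2) ^ 2 := pow_le_pow_left₀ h4 h1 2
  have h6 : Θ ^ 4 * n ≤ Θ ^ 4 * (4 * (m : ℝ) ^ 2) :=
    mul_le_mul_of_nonneg_left h3 (by positivity)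
  have h7 : Θ ^ 4 * n ≤ (36 * n ^ 3) * n := by nlinarith
  exact le_of_mul_le_mul_right h7 (by linarith)

lemma num_exc {u n : ℝ} (hn : 1 < n) (hu : 0 < u) (h : u ^ 3 ≤ n ^ 2) : u ^ 4 ≤ 36 * n ^ 3 := by
  have h1 : u ≤ n := by
    by_contra hcon
    push Not at hcon
    have h2 : n ^ 3 < u ^ 3 := pow_lt_pow_left₀ hcon (by linarith) (by norm_num)
    have h3 : n ^ 2 * 1 ≤ n ^ 2 * n := mul_le_mul_of_nonneg_left hn.le (by positivity)
    nlinarith
  have h2 : u ^ 4 ≤ n ^ 2 * n := by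
    calc u ^ 4 = u ^ 3 * u := by ring
      _ ≤ n ^ 2 * n := mul_le_mul h h1 hu.le (by positivity)
  have h3 : 0 ≤ n ^ 3 := by positivity
  nlinarith

/-- both eigenvalues are at most of order `n ^ (3 / 4)` -/
lemma quart (h : Dat G T θ0 θ1 θ2 α) (hreg : ¬ ∃ d, G.IsRegularOfDegree d) (h1 : 0 < θ1) :
    θ1 * -θ2 ≤ (Fintype.card V : ℝ) ∧ 1 < (Fintype.card V : ℝ) ∧
      θ1 ^ 4 ≤ 36 * (Fintype.card V : ℝ) ^ 3 ∧ (-θ2) ^ 4 ≤ 36 * (Fintype.card V : ℝ) ^ 3 := by
  have h2 := th2_lt h hreg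
  have hth := th0_le h
  have h01 := h.h01
  set n : ℝ := (Fintype.card V : ℝ) with hn
  have hn1 : 1 < n := by linarith [h.h0]
  have hc : θ1 * -θ2 ≤ n := by
    obtain ⟨x0⟩ := h.conn.nonempty
    have e1 := h.diag x0
    have e2 : G.degree x0 + 1 ≤ Fintype.card V := G.degree_lt_card_verts x0
    have e3 : (G.degree x0 : ℝ) + 1 ≤ n := by rw [hn]; exact_mod_cast e2
    have e4 : 0 < α x0 ^ 2 := pow_pos (h.pos x0) 2
    nlinarith
  refine ⟨hc, hn1, ?_, ?_⟩
  · obtain ⟨m, hm1, hm2⟩ := absA h h1 h2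
    have hm3 : n ≤ ((m : ℝ) + 1) ^ 2 := by rw [hn]; exact_mod_cast hm2
    apply num_quart hn1 _ hm3
    have f1 : θ1 * m ≤ n * -θ2 := by
      have g1 : 0 ≤ -θ2 * m := mul_nonneg (by linarith) (Nat.cast_nonneg _)
      nlinarith [h.h0]
    have f2 : θ1 * (θ1 * m) ≤ θ1 * (n * -θ2) := mul_le_mul_of_nonneg_left f1 h1.le
    have f3 : n * (θ1 * -θ2) ≤ n * n := mul_le_mul_of_nonneg_left hc (by linarith)
    have f4 : 0 ≤ n ^ 2 := by positivity
    nlinarith
  · by_cases hne : θ2 = -θ1 ^ 2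
    · apply num_exc hn1 (by linarith)
      have e1 : -θ2 = θ1 ^ 2 := by rw [hne]; ring
      rw [e1] at hc ⊢
      have e2 : 0 ≤ θ1 * θ1 ^ 2 := by positivity
      have e3 := pow_le_pow_left₀ e2 hc 2
      calc (θ1 ^ 2) ^ 3 = (θ1 * θ1 ^ 2) ^ 2 := by ring
        _ ≤ n ^ 2 := e3
    · obtain ⟨m, hm1, hm2⟩ := absB h h1 hne
      have hm3 : n ≤ ((m : ℝ) + 1) ^ 2 := by rw [hn]; exact_mod_cast hm2
      apply num_quart hn1 _ hm3
      have hm : 1 ≤ m := by
        by_contra hcon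
        have : m = 0 := by omega
        rw [this] at hm3
        norm_num at hm3
        linarith
      have hm' : (1 : ℝ) ≤ m := by exact_mod_cast hm
      have g0 : -θ2 * m ≤ (n - 1) * θ1 + θ0 := by
        have g1 : 0 ≤ θ1 * m := mul_nonneg h1.le (Nat.cast_nonneg _)
        nlinarith
      have g1 : -θ2 ≤ 2 * n := by
        rcases le_or_gt 1 θ1 with h' | h'
        · nlinarith
        · have g2 : -θ2 * 1 ≤ -θ2 * m := mul_le_mul_of_nonneg_left hm' (by linarith)
          nlinarith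
      have g2 : -θ2 * (-θ2 * m) ≤ -θ2 * ((n - 1) * θ1 + θ0) :=
        mul_le_mul_of_nonneg_left g0 (by linarith)
      have g3 : (n - 1) * (θ1 * -θ2) ≤ n * n := by nlinarith
      have g4 : -θ2 * θ0 ≤ (2 * n) * n := mul_le_mul g1 (by linarith) h.h0.le (by linarith)
      nlinarith

/-- distinct values of the Perron vector differ by at least 1 -/
lemma spacing (h : Dat G T θ0 θ1 θ2 α) (hreg : ¬ ∃ d, G.IsRegularOfDegree d) (h1 : 0 < θ1)
    (u v : V) (hne : α u ≠ α v) : 1 ≤ |α u - α v| := by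
  obtain ⟨a, ha⟩ := h.int_sq hreg u
  obtain ⟨b, hb⟩ := h.int_sq hreg v
  obtain ⟨c, hc⟩ := int_mul h hreg h1 u v
  have e1 : (α u - α v) ^ 2 = ((a + b - 2 * c : ℤ) : ℝ) := by
    push_cast
    rw [← ha, ← hb, ← hc]; ring
  have e2 : 0 < (α u - α v) ^ 2 := by
    have := sub_ne_zero.mpr hne
    positivity
  rw [e1] at e2
  have e3 : 0 < a + b - 2 * c := by exact_mod_cast e2
  have e4 : (1 : ℝ) ≤ ((a + b - 2 * c : ℤ) : ℝ) := by exact_mod_cast e3
  rw [← e1, ← sq_abs] at e4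
  by_contra hcon
  push Not at hcon
  have := abs_nonneg (α u - α v)
  nlinarith

lemma num_main {n q t θ1 u : ℝ} (hn : 1 < n) (hq : 1 ≤ q) (ht0 : 0 ≤ t) (ht : t ≤ 5 * q)
    (h1 : 0 < θ1)
    (hu : 0 < u) (hc : θ1 * u ≤ n) (hθ : θ1 ^ 4 ≤ 36 * n ^ 3) (hu4 : u ^ 4 ≤ 36 * n ^ 3)
    (k1 : q ^ 5 / 2 ≤ (u + t) * ((θ1 + u) * n)) (k2 : q ^ 5 / 2 ≤ (θ1 + t) * ((θ1 + u) * n)) :
    q ^ 16 ≤ 92160000 * n ^ 7 := by
  have hn0 : 0 < n := by linarith
  have hcn : θ1 * u * n ≤ n * n := mul_le_mul_of_nonneg_right hc hn0.le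
  obtain ⟨Θ, hΘ0, hΘ3, hk⟩ : ∃ Θ : ℝ, 0 < Θ ∧ Θ ^ 4 ≤ 36 * n ^ 3 ∧
      q ^ 5 ≤ 4 * n ^ 2 + 4 * (t * (Θ * n)) := by
    rcases le_total θ1 u with hle | hle
    · refine ⟨u, hu, hu4, ?_⟩
      have f1 : θ1 * θ1 * n ≤ θ1 * u * n :=
        mul_le_mul_of_nonneg_right (mul_le_mul_of_nonneg_left hle h1.le) hn0.le
      have f2 : t * (θ1 * n) ≤ t * (u * n) :=
        mul_le_mul_of_nonneg_left (mul_le_mul_of_nonneg_right hle hn0.le) ht0
      nlinarith
    · refine ⟨θ1, h1, hθ, ?_⟩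
      have f1 : u * u * n ≤ u * θ1 * n :=
        mul_le_mul_of_nonneg_right (mul_le_mul_of_nonneg_left hle hu.le) hn0.le
      have f2 : t * (u * n) ≤ t * (θ1 * n) :=
        mul_le_mul_of_nonneg_left (mul_le_mul_of_nonneg_right hle hn0.le) ht0
      nlinarith
  have hΘn : 0 < Θ * n := mul_pos hΘ0 hn0
  have hk2 : q ^ 5 ≤ 4 * n ^ 2 + 20 * (q * (Θ * n)) := by
    have := mul_le_mul_of_nonneg_right ht hΘn.le
    linarith
  have hq0 : 0 < q := by linarith
  rcases le_total (20 * (q * (Θ * n))) (4 * n ^ 2) with hA | hB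
  · have g1 : q ^ 5 ≤ 8 * n ^ 2 := by linarith
    have g2 : q ≤ 2 * n := by
      by_contra hcon
      push Not at hcon
      have g3 : (2 * n) ^ 5 < q ^ 5 := pow_lt_pow_left₀ hcon (by linarith) (by norm_num)
      have g4 : n ^ 2 * 1 ≤ n ^ 2 * n ^ 3 :=
        mul_le_mul_of_nonneg_left (one_le_pow₀ hn.le) (by positivity)
      nlinarith
    have g5 : (q ^ 5) ^ 3 ≤ (8 * n ^ 2) ^ 3 := pow_le_pow_left₀ (by positivity) g1 3
    have g6 : (q ^ 5) ^ 3 * q ≤ (8 * n ^ 2) ^ 3 * (2 * n) :=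
      mul_le_mul g5 g2 hq0.le (by positivity)
    have g7 : 0 ≤ n ^ 7 := by positivity
    calc q ^ 16 = (q ^ 5) ^ 3 * q := by ring
      _ ≤ (8 * n ^ 2) ^ 3 * (2 * n) := g6
      _ = 1024 * n ^ 7 := by ring
      _ ≤ 92160000 * n ^ 7 := by nlinarith
  · have g1 : q ^ 5 ≤ 40 * (q * (Θ * n)) := by linarith
    have g2 : q ^ 4 ≤ 40 * (Θ * n) := by
      have : q * q ^ 4 ≤ q * (40 * (Θ * n)) := by
        calc q * q ^ 4 = q ^ 5 := by ring
          _ ≤ _ := g1
          _ = _ := by ring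
      exact le_of_mul_le_mul_left this hq0
    have g3 : (q ^ 4) ^ 4 ≤ (40 * (Θ * n)) ^ 4 := pow_le_pow_left₀ (by positivity) g2 4
    have g4 : Θ ^ 4 * n ^ 4 ≤ 36 * n ^ 3 * n ^ 4 := mul_le_mul_of_nonneg_right hΘ3 (by positivity)
    calc q ^ 16 = (q ^ 4) ^ 4 := by ring
      _ ≤ (40 * (Θ * n)) ^ 4 := g3
      _ = 2560000 * (Θ ^ 4 * n ^ 4) := by ring
      _ ≤ 2560000 * (36 * n ^ 3 * n ^ 4) := by linarith
      _ = 92160000 * n ^ 7 := by ring

/-- the number of distinct values of the Perron vector -/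
theorem values (h : Dat G T θ0 θ1 θ2 α) (hreg : ¬ ∃ d, G.IsRegularOfDegree d) (h1 : 0 < θ1) :
    ((Finset.univ.image α).card : ℝ) ≤ 20 * (Fintype.card V : ℝ) ^ ((7 : ℝ) / 16) := by
  obtain ⟨hc, hn1, hθ4, hu4⟩ := quart h hreg h1
  have h2 := th2_lt h hreg
  set X : Finset ℝ := Finset.univ.image α with hX
  have hex : ∀ x ∈ X, ∃ v, α v = x := by
    intro x hx
    obtain ⟨v, _, hv⟩ := Finset.mem_image.mp hx
    exact ⟨v, hv⟩
  obtain ⟨x0⟩ := h.conn.nonempty
  let rep : ℝ → V := fun x => if hx : ∃ v, α v = x then hx.choose else x0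
  have hrep : ∀ x ∈ X, α (rep x) = x := by
    intro x hx
    have h3 := hex x hx
    have : rep x = h3.choose := dif_pos h3
    rw [this]
    exact h3.choose_spec
  have hsp : ∀ x ∈ X, ∀ y ∈ X, x ≠ y → 1 ≤ |x - y| := by
    intro x hx y hy hxy
    obtain ⟨u, rfl⟩ := hex x hx
    obtain ⟨v, rfl⟩ := hex y hy
    exact spacing h hreg h1 u v hxy
  set n : ℝ := (Fintype.card V : ℝ) with hn
  have hpow1 : (1 : ℝ) ≤ n ^ ((7 : ℝ) / 16) := Real.one_le_rpow hn1.le (by norm_num)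
  by_cases hsmall : X.card < 3
  · have : (X.card : ℝ) ≤ 2 := by
      have : X.card ≤ 2 := by omega
      exact_mod_cast this
    linarith
  · set q : ℕ := X.card / 3 with hq
    have hq1 : 1 ≤ q := by omega
    have hq3 : 3 * q ≤ X.card := by omega
    have hq5 : X.card ≤ 5 * q := by omega
    have k1 := key1 h (by linarith) X rep hrep hsp q hq3
    have k2 := key2 h h1.le X rep hrep hsp q hq3
    have key := num_main (n := n) (q := q) (t := X.card) (θ1 := θ1) (u := -θ2) hn1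
      (by exact_mod_cast hq1) (Nat.cast_nonneg _) (by exact_mod_cast hq5) h1 (by linarith) hc hθ4
      hu4 k1 k2
    have hq5' : (X.card : ℝ) ≤ 5 * q := by exact_mod_cast hq5
    have hq4 : (q : ℝ) ≤ 4 * n ^ ((7 : ℝ) / 16) := by
      have e1 : (n ^ ((7 : ℝ) / 16)) ^ 16 = n ^ 7 := by
        rw [← Real.rpow_natCast, ← Real.rpow_mul (by linarith)]
        norm_num
      have e2 : (q : ℝ) ^ 16 ≤ (4 * n ^ ((7 : ℝ) / 16)) ^ 16 := by
        rw [mul_pow, e1]
        have e3 : 0 ≤ n ^ 7 := by positivity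
        refine key.trans ?_
        nlinarith
      exact le_of_pow_le_pow_left₀ (by norm_num) (by positivity) e2
    linarith

/-- the number of distinct valencies is at most the number of values of the Perron vector -/
lemma deg_le (h : Dat G T θ0 θ1 θ2 α) :
    (Finset.univ.image (fun v => G.degree v)).card ≤ (Finset.univ.image α).card := by
  have e1 : ∀ v, (G.degree v : ℝ) = α v ^ 2 - θ1 * θ2 := h.diag
  have e2 : (Finset.univ.image (fun v => (G.degree v : ℝ)))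
      = (Finset.univ.image α).image (fun x => x ^ 2 - θ1 * θ2) := by
    rw [Finset.image_image]
    exact Finset.image_congr fun v _ => e1 v
  have e3 : (Finset.univ.image (fun v => (G.degree v : ℝ))).card
      = (Finset.univ.image (fun v => G.degree v)).card := by
    have : (Finset.univ.image (fun v => (G.degree v : ℝ)))
        = (Finset.univ.image (fun v => G.degree v)).image (fun k : ℕ => (k : ℝ)) := by
      rw [Finset.image_image]; rfl
    rw [this, Finset.card_image_of_injective _ Nat.cast_injective]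
  rw [← e3, e2]
  exact Finset.card_image_le

end Val3
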